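import Pool.Agent.H461.Blk.Cub

/-!
# Blocks of factors with different exponents
-/

set_option autoImplicit false

namespace Pool.Agent.H461.Blk

open Finset Polynomial Pool.Agent.W4.CF Pool.Agent.W4.VC Pool.Agent.TH498.KB

/-- the number of coprime pairs in the box of size `Y` with a radical at most `T` is
`O((m Y) ^ ε T ^ (1 / v))` -/
def Bdd (f : ℤ[X]) (n : ℕ) (v : ℝ) : Prop :=
  ∀ ε : ℝ, 0 < ε → ∃ D : ℝ, 0 < D ∧ ∀ (m : ℕ) (Y T : ℝ), 1 ≤ m → 1 ≤ Y → 1 ≤ T →
    ∀ s : Finset (ℤ × ℤ), (∀ p ∈ s, IsCoprime p.1 p.2 ∧ |(p.1 : ℝ)| ≤ Y ∧ |(p.2 : ℝ)| ≤ Y ∧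
      hom f n p.1 p.2 ≠ 0 ∧ (radp m (hom f n p.1 p.2).natAbs : ℝ) ≤ T) →
    (s.card : ℝ) ≤ D * ((m : ℝ) * Y) ^ ε * T ^ (1 / v)

theorem bdd_small (f : ℤ[X]) (n : ℕ) (hf : Sqf f n) (hn : 2 ≤ n) : Bdd f n 1 := by
  intro ε hε
  obtain ⟨D, hD, h⟩ := small f n hf hn ε hε
  refine ⟨D, hD, fun m Y T hm hY hT s hs => ?_⟩
  have := h m Y T hm hY (by linarith) s hs
  rwa [div_one, Real.rpow_one]

theorem bdd_cubic (f : ℤ[X]) (hdeg : f.natDegree = 3)
    (hirr : Irreducible (f.map (Int.castRingHom ℚ))) : Bdd f 3 (3 / 2) := by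
  intro ε hε
  obtain ⟨D, hD, h⟩ := cubic f hdeg hirr ε hε
  refine ⟨D, hD, fun m Y T hm hY hT s hs => ?_⟩
  have := h m Y T hm hY hT s hs
  have e : (1 : ℝ) / (3 / 2) = 2 / 3 := by norm_num
  rwa [e]

/-- **Blocks with exponents.** -/
theorem wblocks {ι β : Type} [Fintype ι] [DecidableEq ι] [Fintype β] [DecidableEq β] [Nonempty β]
    (F : ι → ℤ[X]) (d : ι → ℕ) (hd : ∀ k, (F k).natDegree ≤ d k)
    (hsq : Sqf (∏ k, F k) (∑ k, d k)) (B : β → Finset ι) (v : β → ℝ) (hv : ∀ b, 0 < v b)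
    (hB : ∀ b, Bdd (∏ k ∈ B b, F k) (∑ k ∈ B b, d k) (v b))
    (c : ℕ) (hc : ∀ k, (univ.filter (fun b => k ∈ B b)).card ≤ c) (hc1 : 1 ≤ c) :
    Bdd (∏ k, F k) (∑ k, d k) ((∑ b, v b) / c) := by
  classical
  intro ε hε
  have hsub : ∀ J : Finset ι, ∃ M : ℕ, 1 ≤ M ∧
      ∀ a b : ℤ, IsCoprime a b → ∀ p : ℕ, p.Prime →
        (p : ℤ) ∣ ∏ k ∈ J, hom (F k) (d k) a b → (p : ℤ) ∣ ∏ k ∈ Jᶜ, hom (F k) (d k) a b →
        p ∣ M := by
    intro J
    have h1 : (∏ k ∈ J, F k) * (∏ k ∈ Jᶜ, F k) = ∏ k, F k := prod_mul_prod_compl J F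
    have h2 : (∑ k ∈ J, d k) + (∑ k ∈ Jᶜ, d k) = ∑ k, d k := sum_add_sum_compl J d
    have hp := fun (K : Finset ι) (a b : ℤ) => hom_prod K F d (fun i _ => hd i) a b
    have h3 := Pool.Agent.W290.VC.t_RES (∏ k ∈ J, F k) (∏ k ∈ Jᶜ, F k) (∑ k ∈ J, d k)
      (∑ k ∈ Jᶜ, d k) (hp J 0 0).1 (hp Jᶜ 0 0).1 (by rw [h1, h2]; exact hsq)
    obtain ⟨a1, -, M, hM, h4⟩ := h3
    refine ⟨M, hM, ?_⟩
    intro a b hab p hpp x1 x2
    rw [← (hp J a b).2] at x1
    rw [← (hp Jᶜ a b).2] at x2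
    exact h4 a b hab p hpp x1 x2
  choose M hM hMp using hsub
  set M0 : ℕ := ∏ k : ι, M {k} with hM0
  have hM01 : 1 ≤ M0 := by
    rw [hM0]
    exact Nat.one_le_iff_ne_zero.mpr (prod_ne_zero_iff.mpr fun k _ => by
      have := hM {k}
      omega)
  choose D hD hDs using fun b => hB b ε hε
  set V : ℝ := ∑ b, v b with hV
  have hV0 : 0 < V := sum_pos (fun b _ => hv b) univ_nonempty
  have hc0 : (0 : ℝ) < c := by exact_mod_cast hc1
  refine ⟨(∑ b, D b) * (M0 : ℝ) ^ ε, ?_, ?_⟩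
  · have : 0 < ∑ b, D b := sum_pos (fun b _ => hD b) univ_nonempty
    have : (0 : ℝ) < M0 := by exact_mod_cast hM01
    positivity
  intro m Y R hm hY hR s hs
  set T : β → ℝ := fun b => R ^ (c * v b / V) with hT
  have hR0 : 0 < R := by linarith
  have hT1 : ∀ b, 1 ≤ T b := by
    intro b
    have := hv b
    exact Real.one_le_rpow hR (by positivity)
  have hTv : ∀ b, T b ^ (1 / v b) = R ^ (1 / (V / c)) := by
    intro b
    have := (hv b).ne'
    show (R ^ (c * v b / V)) ^ (1 / v b) = _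
    rw [← Real.rpow_mul hR0.le]
    congr 1
    field_simp
  have hmM : 1 ≤ m * M0 := Nat.one_le_iff_ne_zero.mpr (by
    have : m ≠ 0 := by omega
    have : M0 ≠ 0 := by omega
    positivity)
  have hval : ∀ p ∈ s, (∀ k, hom (F k) (d k) p.1 p.2 ≠ 0) ∧
      ((∏ k, radp (m * M0) (hom (F k) (d k) p.1 p.2).natAbs : ℕ) : ℝ) ≤ R := by
    intro p hp
    obtain ⟨hcop, b1, b2, b3, b4⟩ := hs p hp
    have hh := (hom_prod univ F d (fun i _ => hd i) p.1 p.2).2
    rw [hh] at b3 b4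
    have hne : ∀ k, hom (F k) (d k) p.1 p.2 ≠ 0 := fun k => prod_ne_zero_iff.mp b3 k (mem_univ k)
    refine ⟨hne, ?_⟩
    refine le_trans ?_ b4
    have e1 : (∏ k, hom (F k) (d k) p.1 p.2).natAbs = ∏ k, (hom (F k) (d k) p.1 p.2).natAbs :=
      map_prod Int.natAbsHom _ _
    rw [e1]
    have e2 : ∏ k, radp (m * M0) (hom (F k) (d k) p.1 p.2).natAbs ≤
        radp (m * M0) (∏ k, (hom (F k) (d k) p.1 p.2).natAbs) := by
      apply prod_radp_le
      · intro k
        exact Int.natAbs_ne_zero.mpr (hne k)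
      · intro k k' hkk' q hq q1 q2
        have f1 : (q : ℤ) ∣ ∏ l ∈ ({k} : Finset ι), hom (F l) (d l) p.1 p.2 := by
          rw [prod_singleton]
          exact Int.natCast_dvd.mpr q1
        have f2 : (q : ℤ) ∣ ∏ l ∈ ({k} : Finset ι)ᶜ, hom (F l) (d l) p.1 p.2 := by
          refine (Int.natCast_dvd.mpr q2).trans (dvd_prod_of_mem _ ?_)
          rw [mem_compl, mem_singleton]
          exact Ne.symm hkk'
        have f3 := hMp {k} p.1 p.2 hcop q hq f1 f2
        exact (f3.trans (dvd_prod_of_mem (fun k => M {k}) (mem_univ k))).mul_left m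
    exact_mod_cast e2.trans (radp_mono_left m M0 _)
  have hex : ∀ p ∈ s, ∃ b : β,
      (radp (m * M0) (hom (∏ k ∈ B b, F k) (∑ k ∈ B b, d k) p.1 p.2).natAbs : ℝ) ≤ T b := by
    intro p hp
    obtain ⟨hne, hle⟩ := hval p hp
    by_contra hcon
    push Not at hcon
    have k1 : ∀ b : β, T b < ((∏ k ∈ B b, radp (m * M0) (hom (F k) (d k) p.1 p.2).natAbs : ℕ) : ℝ) := by
      intro b
      refine lt_of_lt_of_le (hcon b) ?_
      rw [(hom_prod (B b) F d (fun i _ => hd i) p.1 p.2).2]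
      have e1 : (∏ k ∈ B b, hom (F k) (d k) p.1 p.2).natAbs =
          ∏ k ∈ B b, (hom (F k) (d k) p.1 p.2).natAbs := map_prod Int.natAbsHom _ _
      rw [e1]
      exact_mod_cast radp_prod_le (m * M0) (B b) _ (fun k _ => Int.natAbs_ne_zero.mpr (hne k))
    have k2 : ∏ b : β, T b <
        ∏ b : β, ((∏ k ∈ B b, radp (m * M0) (hom (F k) (d k) p.1 p.2).natAbs : ℕ) : ℝ) :=
      prod_lt_prod_of_nonempty (fun b _ => by linarith [hT1 b]) (fun b _ => k1 b) univ_nonempty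
    have k3 : ∏ b : β, T b = R ^ c := by
      show ∏ b : β, R ^ (c * v b / V) = R ^ c
      rw [← Real.rpow_sum_of_pos hR0, ← Real.rpow_natCast]
      congr 1
      rw [← sum_div, ← mul_sum, ← hV]
      field_simp
    have k4 : (∏ b : β, ∏ k ∈ B b, radp (m * M0) (hom (F k) (d k) p.1 p.2).natAbs) ≤
        (∏ k, radp (m * M0) (hom (F k) (d k) p.1 p.2).natAbs) ^ c := by
      have e1 : ∀ b : β, ∏ k ∈ B b, radp (m * M0) (hom (F k) (d k) p.1 p.2).natAbs =
          ∏ k, if k ∈ B b then radp (m * M0) (hom (F k) (d k) p.1 p.2).natAbs else 1 := by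
        intro b
        rw [prod_ite_mem, univ_inter]
      rw [prod_congr rfl (fun b _ => e1 b), prod_comm, ← prod_pow]
      apply prod_le_prod'
      intro k _
      rw [prod_ite, prod_const_one, mul_one, prod_const]
      exact Nat.pow_le_pow_right (Pool.Agent.W4.CF.radp_pos _ _) (hc k)
    have k5 : ((∏ b : β, ∏ k ∈ B b, radp (m * M0) (hom (F k) (d k) p.1 p.2).natAbs : ℕ) : ℝ) ≤
        R ^ c := by
      calc _ ≤ (((∏ k, radp (m * M0) (hom (F k) (d k) p.1 p.2).natAbs) ^ c : ℕ) : ℝ) := by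
            exact_mod_cast k4
        _ = ((∏ k, radp (m * M0) (hom (F k) (d k) p.1 p.2).natAbs : ℕ) : ℝ) ^ c := by push_cast; rfl
        _ ≤ R ^ c := by gcongr
    rw [k3] at k2
    have k6 : (∏ b : β, ((∏ k ∈ B b, radp (m * M0) (hom (F k) (d k) p.1 p.2).natAbs : ℕ) : ℝ)) =
        ((∏ b : β, ∏ k ∈ B b, radp (m * M0) (hom (F k) (d k) p.1 p.2).natAbs : ℕ) : ℝ) := by
      push_cast
      rfl
    rw [k6] at k2
    linarith
  have hcover : s ⊆ univ.biUnion (fun b : β => s.filter (fun p =>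
      (radp (m * M0) (hom (∏ k ∈ B b, F k) (∑ k ∈ B b, d k) p.1 p.2).natAbs : ℝ) ≤ T b)) := by
    intro p hp
    obtain ⟨b, hb⟩ := hex p hp
    rw [mem_biUnion]
    exact ⟨b, mem_univ b, mem_filter.mpr ⟨hp, hb⟩⟩
  have hb : ∀ b : β, ((s.filter (fun p =>
      (radp (m * M0) (hom (∏ k ∈ B b, F k) (∑ k ∈ B b, d k) p.1 p.2).natAbs : ℝ) ≤ T b)).card : ℝ) ≤
      D b * (((m * M0 : ℕ) : ℝ) * Y) ^ ε * R ^ (1 / (V / c)) := by
    intro b
    rw [← hTv b]
    apply hDs b (m * M0) Y (T b) hmM hY (hT1 b)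
    intro p hp
    rw [mem_filter] at hp
    obtain ⟨hcop, b1, b2, b3, b4⟩ := hs p hp.1
    refine ⟨hcop, b1, b2, ?_, hp.2⟩
    rw [(hom_prod (B b) F d (fun i _ => hd i) p.1 p.2).2]
    exact prod_ne_zero_iff.mpr fun k _ => (hval p hp.1).1 k
  calc (s.card : ℝ) ≤ ((univ.biUnion (fun b : β => s.filter (fun p =>
      (radp (m * M0) (hom (∏ k ∈ B b, F k) (∑ k ∈ B b, d k) p.1 p.2).natAbs : ℝ) ≤ T b))).card : ℝ) := by
        exact_mod_cast card_le_card hcover
    _ ≤ ∑ b : β, ((s.filter (fun p =>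
      (radp (m * M0) (hom (∏ k ∈ B b, F k) (∑ k ∈ B b, d k) p.1 p.2).natAbs : ℝ) ≤ T b)).card : ℝ) := by
        exact_mod_cast card_biUnion_le
    _ ≤ ∑ b : β, D b * (((m * M0 : ℕ) : ℝ) * Y) ^ ε * R ^ (1 / (V / c)) :=
        sum_le_sum fun b _ => hb b
    _ = (∑ b, D b) * (M0 : ℝ) ^ ε * ((m : ℝ) * Y) ^ ε * R ^ (1 / (V / c)) := by
        rw [← sum_mul, ← sum_mul]
        push_cast
        have : (m : ℝ) * M0 * Y = M0 * ((m : ℝ) * Y) := by ring
        rw [this, Real.mul_rpow (by positivity) (by positivity)]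
        ring

/-- **Rational zeros and other factors.** A form without multiple factors that is the product of
`w` forms with bounds of exponents `1 / v_j` and of `L ≠ 1` linear forms. -/
theorem wpaired (w L : ℕ) (hL : L ≠ 1) (hwL : 1 ≤ w + L) (g : Fin w → ℤ[X]) (n : Fin w → ℕ)
    (hg : ∀ j, (g j).natDegree ≤ n j) (v : Fin w → ℝ) (hv : ∀ j, 0 < v j)
    (hb : ∀ j, Bdd (g j) (n j) (v j)) (h : Fin L → ℤ[X])
    (hh : ∀ i, (h i).natDegree ≤ 1) (hsq : Sqf ((∏ j, g j) * ∏ i, h i) (∑ j, n j + L)) :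
    Bdd ((∏ j, g j) * ∏ i, h i) (∑ j, n j + L) ((L + 2 * ∑ j, v j) / 2) := by
  classical
  let F : Fin w ⊕ Fin L → ℤ[X] := Sum.elim g h
  let d : Fin w ⊕ Fin L → ℕ := Sum.elim n (fun _ => 1)
  have hF : ∏ k, F k = (∏ j, g j) * ∏ i, h i := by
    rw [Fintype.prod_sum_type]
    rfl
  have hdd : ∑ k, d k = ∑ j, n j + L := by
    rw [Fintype.sum_sum_type]
    simp [d]
  let B : Fin w ⊕ (Fin w ⊕ Fin L) → Finset (Fin w ⊕ Fin L) :=
    Sum.elim (fun j => {Sum.inl j}) (Sum.elim (fun j => {Sum.inl j})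
      (fun i => {Sum.inr i, Sum.inr (finRotate L i)}))
  let V : Fin w ⊕ (Fin w ⊕ Fin L) → ℝ := Sum.elim v (Sum.elim v (fun _ => 1))
  have : Nonempty (Fin w ⊕ (Fin w ⊕ Fin L)) := by
    rcases Nat.eq_zero_or_pos w with h0 | h0
    · exact ⟨Sum.inr (Sum.inr ⟨0, by omega⟩)⟩
    · exact ⟨Sum.inl ⟨0, h0⟩⟩
  have hrot : ∀ i : Fin L, i ≠ finRotate L i := by
    intro i
    obtain ⟨k, rfl⟩ : ∃ k, L = k + 2 := ⟨L - 2, by
      have := i.2
      omega⟩
    intro h
    rw [finRotate_apply] at h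
    have := congrArg Fin.val h
    rw [Fin.val_add, Fin.val_one] at this
    have hi := i.2
    rcases Nat.lt_or_ge ((i : ℕ) + 1) (k + 2) with h1 | h1
    · rw [Nat.mod_eq_of_lt h1] at this
      omega
    · have h2 : (i : ℕ) + 1 = k + 2 := by omega
      rw [h2, Nat.mod_self] at this
      omega
  have hFd : ∀ k, (F k).natDegree ≤ d k := by
    rintro (j | i)
    · exact hg j
    · exact hh i
  have hsq' : Sqf (∏ k, F k) (∑ k, d k) := by
    rw [hF, hdd]
    exact hsq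
  have hV : ∀ b, 0 < V b := by
    rintro (j | j | i)
    · exact hv j
    · exact hv j
    · exact one_pos
  have hB : ∀ b, Bdd (∏ k ∈ B b, F k) (∑ k ∈ B b, d k) (V b) := by
    rintro (j | j | i)
    · show Bdd (∏ k ∈ {Sum.inl j}, F k) (∑ k ∈ {Sum.inl j}, d k) (v j)
      rw [sum_singleton, prod_singleton]
      exact hb j
    · show Bdd (∏ k ∈ {Sum.inl j}, F k) (∑ k ∈ {Sum.inl j}, d k) (v j)
      rw [sum_singleton, prod_singleton]
      exact hb j
    · show Bdd (∏ k ∈ {Sum.inr i, Sum.inr (finRotate L i)}, F k)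
        (∑ k ∈ {Sum.inr i, Sum.inr (finRotate L i)}, d k) 1
      set J : Finset (Fin w ⊕ Fin L) := {Sum.inr i, Sum.inr (finRotate L i)} with hJ
      have h1 : (∏ k ∈ J, F k) * (∏ k ∈ Jᶜ, F k) = ∏ k, F k := prod_mul_prod_compl J F
      have h2 : (∑ k ∈ J, d k) + (∑ k ∈ Jᶜ, d k) = ∑ k, d k := sum_add_sum_compl J d
      have hp := fun (K : Finset (Fin w ⊕ Fin L)) (a b : ℤ) =>
        hom_prod K F d (fun i _ => hFd i) a b
      have h3 := Pool.Agent.W290.VC.t_RES (∏ k ∈ J, F k) (∏ k ∈ Jᶜ, F k) (∑ k ∈ J, d k)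
        (∑ k ∈ Jᶜ, d k) (hp J 0 0).1 (hp Jᶜ 0 0).1 (by rw [h1, h2]; exact hsq')
      refine bdd_small _ _ h3.1 ?_
      rw [hJ, sum_pair]
      · simp [d]
      · intro hc
        exact hrot i (Sum.inr_injective hc)
  have hc : ∀ k, (univ.filter (fun b => k ∈ B b)).card ≤ 2 := by
    rintro (j | i)
    · have : (univ.filter (fun b => (Sum.inl j : Fin w ⊕ Fin L) ∈ B b)) ⊆
          {Sum.inl j, Sum.inr (Sum.inl j)} := by
        intro b hb
        rw [mem_filter] at hb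
        rcases b with b | b | b
        · have : (Sum.inl j : Fin w ⊕ Fin L) ∈ ({Sum.inl b} : Finset _) := hb.2
          rw [mem_singleton] at this
          have := Sum.inl_injective this
          subst this
          simp
        · have : (Sum.inl j : Fin w ⊕ Fin L) ∈ ({Sum.inl b} : Finset _) := hb.2
          rw [mem_singleton] at this
          have := Sum.inl_injective this
          subst this
          simp
        · have : (Sum.inl j : Fin w ⊕ Fin L) ∈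
            ({Sum.inr b, Sum.inr (finRotate L b)} : Finset _) := hb.2
          simp at this
      exact (card_le_card this).trans card_le_two
    · have : (univ.filter (fun b => (Sum.inr i : Fin w ⊕ Fin L) ∈ B b)) ⊆
          {Sum.inr (Sum.inr i), Sum.inr (Sum.inr ((finRotate L).symm i))} := by
        intro b hb
        rw [mem_filter] at hb
        rcases b with b | b | b
        · have : (Sum.inr i : Fin w ⊕ Fin L) ∈ ({Sum.inl b} : Finset _) := hb.2
          simp at this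
        · have : (Sum.inr i : Fin w ⊕ Fin L) ∈ ({Sum.inl b} : Finset _) := hb.2
          simp at this
        · have : (Sum.inr i : Fin w ⊕ Fin L) ∈
            ({Sum.inr b, Sum.inr (finRotate L b)} : Finset _) := hb.2
          rw [mem_insert, mem_singleton] at this
          rw [mem_insert, mem_singleton]
          rcases this with h1 | h1
          · left
            rw [Sum.inr_injective h1]
          · right
            rw [Sum.inr_injective h1, Equiv.symm_apply_apply]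
      exact (card_le_card this).trans card_le_two
  have hmain := wblocks F d hFd hsq' B V hV hB 2 hc one_le_two
  rw [hF, hdd] at hmain
  have e : (∑ b, V b) / ((2 : ℕ) : ℝ) = (L + 2 * ∑ j, v j) / 2 := by
    rw [Fintype.sum_sum_type, Fintype.sum_sum_type]
    have e1 : ∑ x : Fin w, V (Sum.inl x) = ∑ j, v j := rfl
    have e2 : ∑ x : Fin w, V (Sum.inr (Sum.inl x)) = ∑ j, v j := rfl
    have e3 : ∑ x : Fin L, V (Sum.inr (Sum.inr x)) = L := by
      show ∑ x : Fin L, (1 : ℝ) = L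
      simp
    rw [e1, e2, e3]
    push_cast
    ring
  rw [e] at hmain
  exact hmain

end Pool.Agent.H461.Blk
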