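import Pool.Agent.H460.CF.T2Main
import Pool.Graph.R_seed8.TH498.KB.Blocks
import Pool.Graph.R_seed8.W4.CF.Deg3

/-!
# Irreducible cubic forms with a small radical

The theorem of helper460 (incidences of points and lines) for all coprime pairs in a box and for
all irreducible cubic forms.
-/

set_option autoImplicit false

namespace Pool.Agent.H461.Blk

open NumberField Finset Polynomial Pool.Agent.W4.CF Pool.Agent.W4.VC Pool.Agent.H460.CF

/-- all coprime pairs in a box -/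
theorem t2box (K : Type) [Field K] [NumberField K] (ρ : 𝓞 K) (A B : ℤ) (hC : Cub K ρ A B) :
    ∃ i : ℕ, 1 ≤ i ∧ ∀ ε : ℝ, 0 < ε → ∃ C : ℝ, 0 < C ∧
      ∀ (m : ℕ) (Y R : ℝ), 1 ≤ m → i ∣ m → 1 ≤ Y → 1 ≤ R → ∀ s : Finset (ℤ × ℤ),
        (∀ p ∈ s, IsCoprime p.1 p.2 ∧ |(p.1 : ℝ)| ≤ Y ∧ |(p.2 : ℝ)| ≤ Y ∧
          (radp m (G A B p.1 p.2).natAbs : ℝ) ≤ R) →
        (s.card : ℝ) ≤ C * ((m : ℝ) * Y) ^ ε * R ^ ((2 : ℝ) / 3) := by
  classical
  obtain ⟨i, hi, h⟩ := t2 K ρ A B hC
  refine ⟨i, hi, fun ε hε => ?_⟩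
  obtain ⟨C1, hC1, h1⟩ := h (ε / 2) (by positivity)
  obtain ⟨C2, hC2, h2⟩ := log_boundR 1 (ε / 2) le_rfl (by positivity)
  refine ⟨C1 * 2 ^ (ε / 2) * C2, by positivity, ?_⟩
  intro m Y R hm him hY hR s hs
  have hm1 : (1 : ℝ) ≤ m := by exact_mod_cast hm
  have hY0 : 0 < Y := by linarith
  let mx : ℤ × ℤ → ℕ := fun p => max p.1.natAbs p.2.natAbs
  have hmx : ∀ p ∈ s, 1 ≤ mx p ∧ mx p ≤ ⌊1 * Y⌋₊ := by
    intro p hp
    obtain ⟨a1, a2, a3, -⟩ := hs p hp
    constructor
    · by_contra hcon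
      have h0 : mx p = 0 := by omega
      have z1 : p.1 = 0 := by
        have : p.1.natAbs ≤ mx p := le_max_left _ _
        omega
      have z2 : p.2 = 0 := by
        have : p.2.natAbs ≤ mx p := le_max_right _ _
        omega
      rw [z1, z2] at a1
      exact not_isCoprime_zero_zero a1
    · apply Nat.le_floor
      have e1 : ((p.1.natAbs : ℕ) : ℝ) = |(p.1 : ℝ)| := by rw [Nat.cast_natAbs, Int.cast_abs]
      have e2 : ((p.2.natAbs : ℕ) : ℝ) = |(p.2 : ℝ)| := by rw [Nat.cast_natAbs, Int.cast_abs]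
      show ((max p.1.natAbs p.2.natAbs : ℕ) : ℝ) ≤ 1 * Y
      rw [Nat.cast_max, e1, e2, one_mul]
      exact max_le a2 a3
  have hmap : ∀ p ∈ s, Nat.log 2 (mx p) ∈ range (Nat.log 2 ⌊1 * Y⌋₊ + 1) := by
    intro p hp
    rw [mem_range]
    have := Nat.log_mono_right (b := 2) (hmx p hp).2
    omega
  have hcard : s.card = ∑ j ∈ range (Nat.log 2 ⌊1 * Y⌋₊ + 1),
      (s.filter (fun p => Nat.log 2 (mx p) = j)).card := card_eq_sum_card_fiberwise hmap
  have hfib : ∀ j ∈ range (Nat.log 2 ⌊1 * Y⌋₊ + 1),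
      ((s.filter (fun p => Nat.log 2 (mx p) = j)).card : ℝ) ≤
        C1 * 2 ^ (ε / 2) * ((m : ℝ) * Y) ^ (ε / 2) * R ^ ((2 : ℝ) / 3) := by
    intro j hj
    rcases (s.filter (fun p => Nat.log 2 (mx p) = j)).eq_empty_or_nonempty with he | ⟨p0, hp0⟩
    · rw [he, card_empty]
      push_cast
      positivity
    have hj2 : (2 : ℝ) ^ (j + 1) ≤ 2 * Y := by
      rw [mem_filter] at hp0
      have hb := hmx p0 hp0.1
      have e1 : 2 ^ j ≤ mx p0 := by
        rw [← hp0.2]
        exact Nat.pow_log_le_self 2 (by omega)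
      have e2 : ((2 ^ j : ℕ) : ℝ) ≤ Y := by
        calc ((2 ^ j : ℕ) : ℝ) ≤ ((mx p0 : ℕ) : ℝ) := by exact_mod_cast e1
          _ ≤ ((⌊1 * Y⌋₊ : ℕ) : ℝ) := by exact_mod_cast hb.2
          _ ≤ 1 * Y := Nat.floor_le (by positivity)
          _ = Y := one_mul Y
      push_cast at e2
      rw [pow_succ]
      linarith
    have hj1 : (1 : ℝ) ≤ 2 ^ (j + 1) := one_le_pow₀ (by norm_num)
    have h3 := h1 m (2 ^ (j + 1)) R hm him hj1 hR (s.filter (fun p => Nat.log 2 (mx p) = j)) (by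
      intro p hp
      rw [mem_filter] at hp
      obtain ⟨a1, a2, a3, a4⟩ := hs p hp.1
      have hb := hmx p hp.1
      have e1 : mx p < 2 ^ (j + 1) := by
        rw [← hp.2]
        exact Nat.lt_pow_succ_log_self (by norm_num) _
      have e2 : 2 ^ j ≤ mx p := by
        rw [← hp.2]
        exact Nat.pow_log_le_self 2 (by omega)
      have c1 : ((p.1.natAbs : ℕ) : ℝ) = |(p.1 : ℝ)| := by rw [Nat.cast_natAbs, Int.cast_abs]
      have c2 : ((p.2.natAbs : ℕ) : ℝ) = |(p.2 : ℝ)| := by rw [Nat.cast_natAbs, Int.cast_abs]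
      have c3 : ((mx p : ℕ) : ℝ) = max |(p.1 : ℝ)| |(p.2 : ℝ)| := by
        show ((max p.1.natAbs p.2.natAbs : ℕ) : ℝ) = _
        rw [Nat.cast_max, c1, c2]
      have e3 : max |(p.1 : ℝ)| |(p.2 : ℝ)| ≤ 2 ^ (j + 1) := by
        rw [← c3]
        exact_mod_cast e1.le
      refine ⟨⟨a1, (le_max_left _ _).trans e3, (le_max_right _ _).trans e3, ?_⟩, a4⟩
      rw [← c3, pow_succ]
      have : ((2 ^ j : ℕ) : ℝ) ≤ ((mx p : ℕ) : ℝ) := by exact_mod_cast e2
      push_cast at this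
      linarith)
    refine h3.trans ?_
    have e4 : ((m : ℝ) * 2 ^ (j + 1)) ^ (ε / 2) ≤ 2 ^ (ε / 2) * ((m : ℝ) * Y) ^ (ε / 2) := by
      rw [← Real.mul_rpow (by norm_num) (by positivity)]
      apply Real.rpow_le_rpow (by positivity) _ (by positivity)
      calc (m : ℝ) * 2 ^ (j + 1) ≤ m * (2 * Y) := by gcongr
        _ = 2 * (m * Y) := by ring
    calc C1 * ((m : ℝ) * 2 ^ (j + 1)) ^ (ε / 2) * R ^ ((2 : ℝ) / 3) ≤
          C1 * (2 ^ (ε / 2) * ((m : ℝ) * Y) ^ (ε / 2)) * R ^ ((2 : ℝ) / 3) := by gcongr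
      _ = _ := by ring
  have hlog := h2 Y hY
  have hYm : Y ^ (ε / 2) ≤ ((m : ℝ) * Y) ^ (ε / 2) := by
    apply Real.rpow_le_rpow hY0.le _ (by positivity)
    exact le_mul_of_one_le_left hY0.le hm1
  calc (s.card : ℝ) = ∑ j ∈ range (Nat.log 2 ⌊1 * Y⌋₊ + 1),
        ((s.filter (fun p => Nat.log 2 (mx p) = j)).card : ℝ) := by exact_mod_cast hcard
    _ ≤ ∑ j ∈ range (Nat.log 2 ⌊1 * Y⌋₊ + 1),
        C1 * 2 ^ (ε / 2) * ((m : ℝ) * Y) ^ (ε / 2) * R ^ ((2 : ℝ) / 3) := sum_le_sum hfib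
    _ = ((Nat.log 2 ⌊1 * Y⌋₊ + 1 : ℕ) : ℝ) *
        (C1 * 2 ^ (ε / 2) * ((m : ℝ) * Y) ^ (ε / 2) * R ^ ((2 : ℝ) / 3)) := by
        rw [sum_const, card_range, nsmul_eq_mul]
    _ ≤ (C2 * Y ^ (ε / 2)) *
        (C1 * 2 ^ (ε / 2) * ((m : ℝ) * Y) ^ (ε / 2) * R ^ ((2 : ℝ) / 3)) := by gcongr
    _ ≤ (C2 * ((m : ℝ) * Y) ^ (ε / 2)) *
        (C1 * 2 ^ (ε / 2) * ((m : ℝ) * Y) ^ (ε / 2) * R ^ ((2 : ℝ) / 3)) := by gcongr
    _ = C1 * 2 ^ (ε / 2) * C2 * (((m : ℝ) * Y) ^ (ε / 2) * ((m : ℝ) * Y) ^ (ε / 2)) *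
        R ^ ((2 : ℝ) / 3) := by ring
    _ = _ := by
        rw [← Real.rpow_add (by positivity)]
        congr 3
        ring

/-- the cubic field attached to an irreducible polynomial `x³ - A x - B` -/
theorem exists_field (A B : ℤ) (hroot : ∀ r : ℚ, r ^ 3 - A * r - B ≠ 0) :
    ∃ (K : Type) (_ : Field K) (_ : NumberField K) (ρ : 𝓞 K), Cub K ρ A B := by
  classical
  let P : ℚ[X] := X ^ 3 - C (A : ℚ) * X - C (B : ℚ)
  have hdeg : P.natDegree = 3 := by
    show (X ^ 3 - C (A : ℚ) * X - C (B : ℚ)).natDegree = 3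
    compute_degree!
  have hmon : P.Monic := by
    show (X ^ 3 - C (A : ℚ) * X - C (B : ℚ)).Monic
    monicity!
  have hirr : Irreducible P := by
    rw [hmon.irreducible_iff_roots_eq_zero_of_degree_le_three (by omega) (by omega)]
    rw [Multiset.eq_zero_iff_forall_notMem]
    intro r hr
    rw [mem_roots hmon.ne_zero, IsRoot.def] at hr
    apply hroot r
    have : P.eval r = r ^ 3 - A * r - B := by simp [P]
    rw [← this]
    exact hr
  have : Fact (Irreducible P) := ⟨hirr⟩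
  let K := AdjoinRoot P
  have hfd : FiniteDimensional ℚ K := (AdjoinRoot.powerBasis hmon.ne_zero).finite
  have : CharZero K := charZero_of_injective_algebraMap (algebraMap ℚ K).injective
  have : NumberField K := { to_charZero := inferInstance, to_finiteDimensional := hfd }
  have hrt : (AdjoinRoot.root P : K) ^ 3 = A * AdjoinRoot.root P + B := by
    have h0 : P.eval₂ (AdjoinRoot.of P) (AdjoinRoot.root P) = 0 := AdjoinRoot.eval₂_root P
    have h1 : P.eval₂ (AdjoinRoot.of P) (AdjoinRoot.root P) = (AdjoinRoot.root P : K) ^ 3 -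
        A * AdjoinRoot.root P - B := by
      have e : ∀ z : ℤ, AdjoinRoot.of P (z : ℚ) = (z : K) := fun z => map_intCast _ z
      have h2 : ∀ x : K, eval₂ (AdjoinRoot.of P) x (X ^ 3 - C (A : ℚ) * X - C (B : ℚ)) =
          x ^ 3 - A * x - B := by
        intro x
        rw [eval₂_sub, eval₂_sub, eval₂_mul, eval₂_pow, eval₂_X, eval₂_C, eval₂_C, e, e]
      exact h2 _
    rw [h1] at h0
    linear_combination h0
  have hint : IsIntegral ℤ (AdjoinRoot.root P : K) := by
    refine ⟨X ^ 3 - C A * X - C B, by monicity!, ?_⟩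
    simp only [eval₂_sub, eval₂_mul, eval₂_pow, eval₂_X, eval₂_C]
    rw [hrt]
    simp
  refine ⟨K, inferInstance, inferInstance, ⟨AdjoinRoot.root P, hint⟩, ?_, ?_, ?_⟩
  · rw [(AdjoinRoot.powerBasis hmon.ne_zero).finrank, AdjoinRoot.powerBasis_dim, hdeg]
  · intro r hr
    apply hroot r
    have h2 : (AdjoinRoot.root P : K) = algebraMap ℚ K r := hr
    rw [h2] at hrt
    have h3 : algebraMap ℚ K (r ^ 3 - A * r - B) = 0 := by
      rw [map_sub, map_sub, map_mul, map_pow, hrt, map_intCast, map_intCast]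
      ring
    exact (map_eq_zero _).mp h3
  · apply RingOfIntegers.ext
    push_cast
    exact hrt

/-- **Irreducible cubic forms.** -/
theorem cubic (f : ℤ[X]) (hdeg : f.natDegree = 3)
    (hirr : Irreducible (f.map (Int.castRingHom ℚ))) (ε : ℝ) (hε : 0 < ε) :
    ∃ C : ℝ, 0 < C ∧ ∀ (m : ℕ) (Y R : ℝ), 1 ≤ m → 1 ≤ Y → 1 ≤ R → ∀ s : Finset (ℤ × ℤ),
      (∀ p ∈ s, IsCoprime p.1 p.2 ∧ |(p.1 : ℝ)| ≤ Y ∧ |(p.2 : ℝ)| ≤ Y ∧
        hom f 3 p.1 p.2 ≠ 0 ∧ (radp m (hom f 3 p.1 p.2).natAbs : ℝ) ≤ R) →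
      (s.card : ℝ) ≤ C * ((m : ℝ) * Y) ^ ε * R ^ ((2 : ℝ) / 3) := by
  classical
  set a : ℤ := f.coeff 3 with ha
  set b : ℤ := f.coeff 2 with hb
  set c : ℤ := f.coeff 1 with hc
  set d : ℤ := f.coeff 0 with hd
  have ha0 : a ≠ 0 := by
    rw [ha, ← hdeg]
    intro h0
    have : f = 0 := leadingCoeff_eq_zero.mp h0
    rw [this, natDegree_zero] at hdeg
    omega
  have hhom : ∀ x y : ℤ, hom f 3 x y = a * x ^ 3 + b * x ^ 2 * y + c * x * y ^ 2 + d * y ^ 3 := by
    intro x y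
    unfold hom
    rw [sum_range_succ, sum_range_succ, sum_range_succ, sum_range_succ, sum_range_zero]
    simp only [← ha, ← hb, ← hc, ← hd]
    norm_num
    ring
  set A : ℤ := 3 * b ^ 2 - 9 * a * c with hA
  set B : ℤ := -(2 * b ^ 3 - 9 * a * b * c + 27 * a ^ 2 * d) with hB
  have hG : ∀ x y : ℤ, G A B (3 * a * x + b * y) y = 27 * a ^ 2 * hom f 3 x y := by
    intro x y
    rw [hhom]
    unfold G
    rw [hA, hB]
    ring
  have hroot : ∀ r : ℚ, r ^ 3 - A * r - B ≠ 0 := by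
    intro r hr
    have ha' : (a : ℚ) ≠ 0 := by exact_mod_cast ha0
    set z : ℚ := (r - b) / (3 * a) with hz
    have hrz : r = 3 * a * z + b := by rw [hz]; field_simp; ring
    have hev : (f.map (Int.castRingHom ℚ)).eval z = a * z ^ 3 + b * z ^ 2 + c * z + d := by
      rw [eval_eq_sum_range' (n := 4) (by
        have := natDegree_map_le (p := f) (f := Int.castRingHom ℚ)
        omega)]
      simp only [sum_range_succ, sum_range_zero, coeff_map, ← ha, ← hb, ← hc, ← hd]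
      simp only [eq_intCast]
      ring
    have h0 : (f.map (Int.castRingHom ℚ)).eval z = 0 := by
      have e : (27 * a ^ 2 : ℚ) * (f.map (Int.castRingHom ℚ)).eval z = 0 := by
        rw [hev, ← hr, hrz, hA, hB]
        push_cast
        ring
      rcases mul_eq_zero.mp e with h | h
      · exfalso
        have : (27 * a ^ 2 : ℚ) ≠ 0 := by positivity
        exact this h
      · exact h
    refine hirr.not_isRoot_of_natDegree_ne_one ?_ h0
    rw [natDegree_map_eq_of_injective (RingHom.injective_int (Int.castRingHom ℚ)), hdeg]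
    norm_num
  obtain ⟨K, iK, iN, ρ, hC⟩ := exists_field A B hroot
  obtain ⟨i, hi, h⟩ := t2box K ρ A B hC
  obtain ⟨C1, hC1, h1⟩ := h ε hε
  set a3 : ℕ := (3 * a).natAbs with ha3
  have ha3' : 1 ≤ a3 := by omega
  set c1 : ℝ := 3 * |(a : ℝ)| + |(b : ℝ)| with hc1
  have haR : (1 : ℝ) ≤ |(a : ℝ)| := by
    have : (1 : ℤ) ≤ |a| := Int.one_le_abs ha0
    exact_mod_cast this
  have hc1' : 1 ≤ c1 := by
    have := abs_nonneg (b : ℝ)
    rw [hc1]
    linarith
  refine ⟨a3 * C1 * ((i * a3 : ℕ) * c1) ^ ε, by positivity, ?_⟩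
  intro m Y R hm hY hR s hs
  have hm1 : (1 : ℝ) ≤ m := by exact_mod_cast hm
  let gg : ℤ × ℤ → ℕ := fun p => Int.gcd (3 * a * p.1 + b * p.2) p.2
  let φ : ℤ × ℤ → ℤ × ℤ := fun p => ((3 * a * p.1 + b * p.2) / gg p, p.2 / gg p)
  have hg : ∀ p ∈ s, 1 ≤ gg p ∧ gg p ∣ a3 ∧ (φ p).1 * gg p = 3 * a * p.1 + b * p.2 ∧
      (φ p).2 * gg p = p.2 ∧ IsCoprime (φ p).1 (φ p).2 := by
    intro p hp
    obtain ⟨a1, -, -, -, -⟩ := hs p hp
    have hgpos : 0 < gg p := by
      apply Nat.pos_of_ne_zero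
      intro h0
      rw [Int.gcd_eq_zero_iff] at h0
      obtain ⟨z1, z2⟩ := h0
      rw [z2] at z1 a1
      have z3 : p.1 = 0 := by
        have : 3 * a * p.1 = 0 := by linarith
        rcases mul_eq_zero.mp this with h | h
        · omega
        · exact h
      rw [z3] at a1
      exact not_isCoprime_zero_zero a1
    have d1 : (gg p : ℤ) ∣ 3 * a * p.1 + b * p.2 := Int.gcd_dvd_left _ _
    have d2 : (gg p : ℤ) ∣ p.2 := Int.gcd_dvd_right _ _
    refine ⟨hgpos, ?_, Int.ediv_mul_cancel d1, Int.ediv_mul_cancel d2, ?_⟩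
    · have d3 : (gg p : ℤ) ∣ 3 * a * p.1 := by
        have := dvd_sub d1 (d2.mul_left b)
        rwa [add_sub_cancel_right] at this
      have d4 : IsCoprime (gg p : ℤ) p.1 := (a1.of_isCoprime_of_dvd_right d2).symm
      have d5 : (gg p : ℤ) ∣ 3 * a := d4.dvd_of_dvd_mul_right d3
      rw [ha3]
      exact Int.natCast_dvd.mp d5
    · rw [Int.isCoprime_iff_gcd_eq_one]
      exact Int.gcd_ediv_gcd_ediv_gcd hgpos
  have hcard : s.card ≤ a3 * (s.image φ).card := by
    apply card_le_mul_card_image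
    intro q hq
    have : (s.filter (fun p => φ p = q)).card ≤ (Icc 1 a3).card := by
      apply card_le_card_of_injOn gg
      · intro p hp
        rw [coe_filter] at hp
        obtain ⟨b1, b2, -⟩ := hg p hp.1
        rw [coe_Icc]
        exact ⟨b1, Nat.le_of_dvd (by omega) b2⟩
      · intro p hp p' hp' hpp
        rw [coe_filter] at hp hp'
        obtain ⟨-, -, b3, b4, -⟩ := hg p hp.1
        obtain ⟨-, -, b3', b4', -⟩ := hg p' hp'.1
        have e0 : φ p = φ p' := hp.2.trans hp'.2.symm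
        have hpp' : gg p = gg p' := hpp
        have e2 : p.2 = p'.2 := by rw [← b4, ← b4', e0, hpp']
        have e3 : 3 * a * p.1 + b * p.2 = 3 * a * p'.1 + b * p'.2 := by
          rw [← b3, ← b3', e0, hpp']
        have e4 : p.1 = p'.1 := by
          rw [e2] at e3
          have : 3 * a * p.1 = 3 * a * p'.1 := by linarith
          exact mul_left_cancel₀ (by omega) this
        exact Prod.ext e4 e2
    simpa using this
  have h2 := h1 (m * (i * a3)) (c1 * Y) R (by nlinarith [Nat.mul_pos hi ha3'])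
    ⟨m * a3, by ring⟩ (by nlinarith) hR (s.image φ) (by
      intro q hq
      rw [mem_image] at hq
      obtain ⟨p, hp, rfl⟩ := hq
      obtain ⟨a1, a2, a3', a4, a5⟩ := hs p hp
      obtain ⟨b1, b2, b3, b4, b5⟩ := hg p hp
      have hgR : (1 : ℝ) ≤ (gg p : ℝ) := by exact_mod_cast b1
      have k1 : |((φ p).1 : ℝ)| ≤ |((3 * a * p.1 + b * p.2 : ℤ) : ℝ)| := by
        rw [← b3]
        push_cast
        rw [abs_mul]
        apply le_mul_of_one_le_right (abs_nonneg _)
        rwa [abs_of_nonneg (by positivity)]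
      have k2 : |((φ p).2 : ℝ)| ≤ |(p.2 : ℝ)| := by
        conv_rhs => rw [← b4]
        push_cast
        rw [abs_mul]
        apply le_mul_of_one_le_right (abs_nonneg _)
        rwa [abs_of_nonneg (by positivity)]
      refine ⟨b5, ?_, ?_, ?_⟩
      · refine k1.trans ?_
        push_cast
        calc |3 * (a : ℝ) * p.1 + b * p.2| ≤ |3 * (a : ℝ) * p.1| + |(b : ℝ) * p.2| := abs_add_le _ _
          _ = 3 * |(a : ℝ)| * |(p.1 : ℝ)| + |(b : ℝ)| * |(p.2 : ℝ)| := by
            rw [abs_mul, abs_mul, abs_mul]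
            norm_num
          _ ≤ 3 * |(a : ℝ)| * Y + |(b : ℝ)| * Y := by gcongr
          _ = c1 * Y := by rw [hc1]; ring
      · refine (k2.trans a3').trans ?_
        exact le_mul_of_one_le_left (by linarith) hc1'
      · refine le_trans ?_ a5
        have key : radp (m * (i * a3)) (G A B (φ p).1 (φ p).2).natAbs ≤
            radp m (hom f 3 p.1 p.2).natAbs := by
          unfold radp
          apply Finset.prod_le_prod_of_subset_of_one_le'
          · intro q hq
            rw [mem_filter] at hq ⊢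
            obtain ⟨hq1, hq2⟩ := hq
            have hqp := Nat.prime_of_mem_primeFactors hq1
            have hqZ : Prime (q : ℤ) := Nat.prime_iff_prime_int.mp hqp
            have hd : (q : ℤ) ∣ G A B (φ p).1 (φ p).2 :=
              Int.natCast_dvd.mpr (Nat.dvd_of_mem_primeFactors hq1)
            have e1 : 27 * a ^ 2 * hom f 3 p.1 p.2 =
                (gg p : ℤ) ^ 3 * G A B (φ p).1 (φ p).2 := by
              rw [← hG, ← b3]
              conv_lhs => rw [← b4]
              unfold G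
              ring
            have hd2 : (q : ℤ) ∣ 27 * a ^ 2 * hom f 3 p.1 p.2 := by
              rw [e1]
              exact hd.mul_left _
            have hqa : ¬ (q : ℤ) ∣ 3 * a := by
              intro h3
              apply hq2
              have : q ∣ a3 := Int.natCast_dvd.mp h3
              exact (this.mul_left i).mul_left m
            have hd3 : (q : ℤ) ∣ hom f 3 p.1 p.2 := by
              rcases hqZ.dvd_or_dvd hd2 with h3 | h3
              · exfalso
                apply hqa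
                have h4 : (q : ℤ) ∣ (3 * a) ^ 3 := by
                  have : (3 * a) ^ 3 = 27 * a ^ 2 * a := by ring
                  rw [this]
                  exact h3.mul_right _
                exact hqZ.dvd_of_dvd_pow h4
              · exact h3
            refine ⟨Nat.mem_primeFactors.mpr ⟨hqp, Int.natCast_dvd.mp hd3,
              Int.natAbs_ne_zero.mpr a4⟩, ?_⟩
            intro h3
            exact hq2 (h3.mul_right _)
          · intro q hq _
            exact (Nat.prime_of_mem_primeFactors (mem_filter.mp hq).1).one_lt.le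
        exact_mod_cast key)
  have e5 : (((m * (i * a3) : ℕ) : ℝ) * (c1 * Y)) ^ ε =
      ((i * a3 : ℕ) * c1) ^ ε * ((m : ℝ) * Y) ^ ε := by
    rw [← Real.mul_rpow (by positivity) (by positivity)]
    congr 1
    push_cast
    ring
  rw [e5] at h2
  calc (s.card : ℝ) ≤ ((a3 * (s.image φ).card : ℕ) : ℝ) := by exact_mod_cast hcard
    _ = a3 * ((s.image φ).card : ℝ) := by push_cast; ring
    _ ≤ a3 * (C1 * (((i * a3 : ℕ) * c1) ^ ε * ((m : ℝ) * Y) ^ ε) * R ^ ((2 : ℝ) / 3)) := by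
        gcongr
    _ = _ := by ring

end Pool.Agent.H461.Blk
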