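import Pool.Agent.H461.Blk.Blocks

/-!
# Forms and their factorisation over the rational numbers
-/

set_option autoImplicit false

namespace Pool.Agent.H461.Blk

open Finset Polynomial UniqueFactorizationMonoid Pool.Agent.W4.CF Pool.Agent.W4.VC

/-- the weight of an irreducible factor of degree `d` -/
def wt (d : ℕ) : ℕ := if d ≤ 3 then d else 2

/-- the polynomial over `ℚ` -/
noncomputable def toQ (f : ℤ[X]) : ℚ[X] := f.map (Int.castRingHom ℚ)

/-- the weight of a form -/
noncomputable def weight (f : ℤ[X]) (q : ℕ) : ℕ :=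
  (q - f.natDegree) + ((normalizedFactors (toQ f)).map (fun p => wt p.natDegree)).sum

theorem hom_smul (c : ℤ) (f : ℤ[X]) (n : ℕ) (x y : ℤ) : hom (C c * f) n x y = c * hom f n x y := by
  unfold hom
  rw [mul_sum]
  refine sum_congr rfl fun j _ => ?_
  rw [coeff_C_mul]
  ring

theorem bdd_smul (f f' : ℤ[X]) (n : ℕ) (v : ℝ) (c c' : ℤ) (hc : c ≠ 0) (hc' : c' ≠ 0)
    (h : C c * f = C c' * f') (hb : Bdd f' n v) : Bdd f n v := by
  intro ε hε
  obtain ⟨D, hD, h1⟩ := hb ε hε
  have hk : 1 ≤ (c * c').natAbs := by
    have : c * c' ≠ 0 := mul_ne_zero hc hc'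
    omega
  set k : ℕ := (c * c').natAbs with hkdef
  refine ⟨D * (k : ℝ) ^ ε, by positivity, ?_⟩
  intro m Y T hm hY hT s hs
  have h2 := h1 (m * k) Y T (Nat.mul_pos hm hk) hY hT s (by
    intro p hp
    obtain ⟨a1, a2, a3, a4, a5⟩ := hs p hp
    have e : c * hom f n p.1 p.2 = c' * hom f' n p.1 p.2 := by
      rw [← hom_smul, ← hom_smul, h]
    have hne : hom f' n p.1 p.2 ≠ 0 := by
      intro h0
      rw [h0, mul_zero] at e
      rcases mul_eq_zero.mp e with h3 | h3
      · exact hc h3
      · exact a4 h3
    refine ⟨a1, a2, a3, hne, le_trans ?_ a5⟩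
    have key : radp (m * k) (hom f' n p.1 p.2).natAbs ≤ radp m (hom f n p.1 p.2).natAbs := by
      unfold radp
      apply Finset.prod_le_prod_of_subset_of_one_le'
      · intro q hq
        rw [mem_filter] at hq ⊢
        obtain ⟨hq1, hq2⟩ := hq
        have hqp := Nat.prime_of_mem_primeFactors hq1
        have hqZ : Prime (q : ℤ) := Nat.prime_iff_prime_int.mp hqp
        have hd : (q : ℤ) ∣ hom f' n p.1 p.2 :=
          Int.natCast_dvd.mpr (Nat.dvd_of_mem_primeFactors hq1)
        have hd2 : (q : ℤ) ∣ c * hom f n p.1 p.2 := by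
          rw [e]
          exact hd.mul_left _
        have hqc : ¬ (q : ℤ) ∣ c := by
          intro h3
          apply hq2
          have : q ∣ k := Int.natCast_dvd.mp (h3.mul_right c')
          exact this.mul_left m
        have hd3 : (q : ℤ) ∣ hom f n p.1 p.2 := (hqZ.dvd_or_dvd hd2).resolve_left hqc
        exact ⟨Nat.mem_primeFactors.mpr ⟨hqp, Int.natCast_dvd.mp hd3,
          Int.natAbs_ne_zero.mpr a4⟩, fun h3 => hq2 (h3.mul_right _)⟩
      · intro q hq _
        exact (Nat.prime_of_mem_primeFactors (mem_filter.mp hq).1).one_lt.le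
    exact_mod_cast key)
  refine h2.trans (le_of_eq ?_)
  push_cast
  have : (m : ℝ) * k * Y = k * ((m : ℝ) * Y) := by ring
  rw [this, Real.mul_rpow (by positivity) (by positivity)]
  ring

/-- an integral multiple of a polynomial -/
theorem exists_int (p : ℚ[X]) : ∃ (g : ℤ[X]) (c : ℤ), c ≠ 0 ∧ toQ g = C (c : ℚ) * p := by
  obtain ⟨b, hb1, hb⟩ := IsLocalization.integerNormalization_spec (nonZeroDivisors ℤ) p
  refine ⟨IsLocalization.integerNormalization (nonZeroDivisors ℤ) p, b,
    nonZeroDivisors.ne_zero hb1, ?_⟩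
  have h1 : toQ (IsLocalization.integerNormalization (nonZeroDivisors ℤ) p) = b • p := hb
  rw [h1, zsmul_eq_mul]
  congr 1

theorem toQ_natDegree (f : ℤ[X]) : (toQ f).natDegree = f.natDegree :=
  natDegree_map_eq_of_injective (RingHom.injective_int (Int.castRingHom ℚ)) f

theorem toQ_mul (f g : ℤ[X]) : toQ (f * g) = toQ f * toQ g := Polynomial.map_mul _

theorem toQ_C (a : ℤ) : toQ (C a) = C (a : ℚ) := Polynomial.map_C _

theorem toQ_inj {f g : ℤ[X]} (h : toQ f = toQ g) : f = g :=
  Polynomial.map_injective _ (RingHom.injective_int (Int.castRingHom ℚ)) h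

theorem roots_card (P : ℚ[X]) (hP : P ≠ 0) :
    P.roots.card = ((normalizedFactors P).filter (fun p => p.natDegree = 1)).card := by
  classical
  obtain ⟨u, hu⟩ := prod_normalizedFactors hP
  have hirr : ∀ p ∈ normalizedFactors P, Irreducible p := fun p hp =>
    irreducible_of_normalized_factor p hp
  have h0 : (0 : ℚ[X]) ∉ normalizedFactors P := zero_notMem_normalizedFactors P
  have h1 : P.roots = (normalizedFactors P).prod.roots := by
    have hass : Associated (normalizedFactors P).prod P := ⟨u, hu⟩
    exact (hass.roots_eq).symm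
  rw [h1, roots_multiset_prod _ h0, Multiset.card_bind, ← Multiset.countP_eq_card_filter]
  generalize normalizedFactors P = S at hirr
  clear h0 h1 hu u hP
  induction S using Multiset.induction_on with
  | empty => simp
  | cons p S ih =>
    rw [Multiset.map_cons, Multiset.sum_cons, Multiset.countP_cons,
      ih (fun p hp => hirr p (Multiset.mem_cons_of_mem hp)), add_comm]
    congr 1
    have hp := hirr p (Multiset.mem_cons_self p S)
    split_ifs with hd
    · have : p.degree = 1 := by
        rw [degree_eq_natDegree hp.ne_zero, hd]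
        rfl
      show p.roots.card = 1
      rw [roots_degree_eq_one this, Multiset.card_singleton]
    · show p.roots.card = 0
      rw [Multiset.card_eq_zero, Multiset.eq_zero_iff_forall_notMem]
      intro x hx
      exact hp.not_isRoot_of_natDegree_ne_one hd (isRoot_of_mem_roots hx)

/-- **Forms.** The exponent is given by the weight if the number of rational zeros is not `1`. -/
theorem form_main (f : ℤ[X]) (q : ℕ) (hq : 1 ≤ q) (hf : Sqf f q)
    (hrat : (toQ f).roots.card + (q - f.natDegree) ≠ 1) : Bdd f q ((weight f q : ℝ) / 2) := by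
  classical
  have hP0 : toQ f ≠ 0 := hf.1.ne_zero
  set S : Multiset ℚ[X] := normalizedFactors (toQ f) with hS
  have hirr : ∀ p ∈ S, Irreducible p := fun p hp => irreducible_of_normalized_factor p hp
  have hpos : ∀ p ∈ S, 1 ≤ p.natDegree := fun p hp => (hirr p hp).natDegree_pos
  obtain ⟨u, hu⟩ := prod_normalizedFactors hP0
  rw [← hS] at hu
  obtain ⟨t, ht, hut⟩ := Polynomial.isUnit_iff.mp u.isUnit
  have ht0 : t ≠ 0 := ht.ne_zero
  rw [← hut] at hu
  set SL := S.filter (fun p => p.natDegree = 1) with hSL
  set SW := S.filter (fun p => ¬ p.natDegree = 1) with hSW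
  have hsplit : SL + SW = S := Multiset.filter_add_not _ _
  choose G cc hcc hG using exists_int
  have hGd : ∀ p, (G p).natDegree = p.natDegree := by
    intro p
    rw [← toQ_natDegree, hG p, natDegree_C_mul (by exact_mod_cast hcc p)]
  set lL := SL.toList with hlL
  set lW := SW.toList with hlW
  have hmemW : ∀ i : Fin lW.length, lW[i.1] ∈ S ∧ lW[i.1].natDegree ≠ 1 := by
    intro i
    have h1 : lW[i.1] ∈ SW := Multiset.mem_toList.mp (List.getElem_mem _)
    exact Multiset.mem_filter.mp h1
  have hmemL : ∀ i : Fin lL.length, lL[i.1] ∈ S ∧ lL[i.1].natDegree = 1 := by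
    intro i
    have h1 : lL[i.1] ∈ SL := Multiset.mem_toList.mp (List.getElem_mem _)
    exact Multiset.mem_filter.mp h1
  set e : ℕ := q - f.natDegree with he
  set g : Fin lW.length → ℤ[X] := fun i => G lW[i.1] with hg
  set n : Fin lW.length → ℕ := fun i => lW[i.1].natDegree with hn
  set h : Fin (lL.length + e) → ℤ[X] :=
    Fin.append (fun i : Fin lL.length => G lL[i.1]) (fun _ : Fin e => 1) with hh
  set v : Fin lW.length → ℝ := fun i => if lW[i.1].natDegree = 3 then 3 / 2 else 1 with hv
  -- products
  have hprod : toQ ((∏ j, g j) * ∏ i, h i) = C (((S.map cc).prod : ℤ) : ℚ) * S.prod := by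
    have e1 : ∏ j, g j = (SW.map G).prod := by
      show ∏ i : Fin lW.length, G lW[i.1] = _
      rw [Fin.prod_univ_fun_getElem lW G, ← Multiset.prod_coe, ← Multiset.map_coe,
        hlW, Multiset.coe_toList]
    have e2 : ∏ i, h i = (SL.map G).prod := by
      rw [hh, Fin.prod_univ_add]
      simp only [Fin.append_left, Fin.append_right, prod_const_one, mul_one]
      rw [Fin.prod_univ_fun_getElem lL G, ← Multiset.prod_coe, ← Multiset.map_coe,
        hlL, Multiset.coe_toList]
    rw [e1, e2, mul_comm, ← Multiset.prod_add, ← Multiset.map_add, hsplit]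
    have e3 : toQ (S.map G).prod = (S.map (fun p => toQ (G p))).prod := by
      show (Polynomial.mapRingHom (Int.castRingHom ℚ)) (S.map G).prod = _
      rw [map_multiset_prod, Multiset.map_map]
      rfl
    have e4 : (S.map (fun p => toQ (G p))).prod = (S.map (fun p => C (cc p : ℚ) * p)).prod := by
      congr 1
      exact Multiset.map_congr rfl fun p _ => hG p
    rw [e3, e4, Multiset.prod_map_mul, Multiset.map_id']
    congr 1
    have e5 : (((S.map cc).prod : ℤ) : ℚ) = (S.map (fun p => (cc p : ℚ))).prod := by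
      rw [← eq_intCast (Int.castRingHom ℚ), map_multiset_prod, Multiset.map_map]
      rfl
    rw [e5, map_multiset_prod, Multiset.map_map]
    rfl
  set R : ℤ := (S.map cc).prod with hR
  have hR0 : R ≠ 0 := by
    rw [hR]
    apply Multiset.prod_ne_zero
    intro h0
    obtain ⟨p, -, hp⟩ := Multiset.mem_map.mp h0
    exact hcc p hp
  set FF : ℤ[X] := (∏ j, g j) * ∏ i, h i with hFF
  have hrel : C ((t.den : ℤ) * R) * f = C t.num * FF := by
    apply toQ_inj
    rw [toQ_mul, toQ_mul, toQ_C, toQ_C, hprod, ← hu]
    have e6 : (((t.den : ℤ) * R : ℤ) : ℚ) * t = (t.num : ℚ) * (R : ℚ) := by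
      push_cast
      have := Rat.mul_den_eq_num t
      calc (t.den : ℚ) * R * t = (t * t.den) * R := by ring
        _ = _ := by rw [this]
    calc C (((t.den : ℤ) * R : ℤ) : ℚ) * (S.prod * C t) =
          C ((((t.den : ℤ) * R : ℤ) : ℚ) * t) * S.prod := by rw [C_mul]; ring
      _ = C ((t.num : ℚ) * (R : ℚ)) * S.prod := by rw [e6]
      _ = _ := by rw [C_mul]; ring
  have hden : ((t.den : ℤ) * R) ≠ 0 := mul_ne_zero (by exact_mod_cast t.den_nz) hR0
  have hnum : t.num ≠ 0 := Rat.num_ne_zero.mpr ht0
  have hFFd : FF.natDegree = f.natDegree := by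
    rw [← natDegree_C_mul hnum, ← hrel, natDegree_C_mul hden]
  have hsum0 : (S.map natDegree).sum = f.natDegree := by
    have e1 : S.prod.natDegree = (S.map natDegree).sum :=
      natDegree_multiset_prod _ (zero_notMem_normalizedFactors (toQ f))
    rw [← e1, ← toQ_natDegree f, ← hu, mul_comm, natDegree_C_mul ht0]
  have hsumW : ∑ j, n j = (SW.map natDegree).sum := by
    show ∑ i : Fin lW.length, natDegree lW[i.1] = _
    rw [Fin.sum_univ_fun_getElem lW natDegree, ← Multiset.sum_coe, ← Multiset.map_coe,
      hlW, Multiset.coe_toList]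
  have hcardL : lL.length = SL.card := Multiset.length_toList SL
  have hsumL : (SL.map natDegree).sum = SL.card := by
    have e1 : SL.map natDegree = SL.map (fun _ => 1) :=
      Multiset.map_congr rfl (fun p hp => (Multiset.mem_filter.mp hp).2)
    rw [e1, Multiset.map_const', Multiset.sum_replicate, smul_eq_mul, mul_one]
  have hsum : ∑ j, n j + (lL.length + e) = q := by
    have h1 : (SL.map natDegree).sum + (SW.map natDegree).sum = f.natDegree := by
      rw [← hsum0, ← hsplit, Multiset.map_add, Multiset.sum_add]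
    have h2 := hf.2.1
    omega
  have hsq : Sqf FF q := by
    refine ⟨?_, by rw [hFFd]; exact hf.2.1, by rw [hFFd]; exact hf.2.2⟩
    have hass : Associated (toQ f) (toQ FF) := by
      rw [hprod, ← hu]
      have hu1 : IsUnit (C t : ℚ[X]) := (isUnit_iff_ne_zero.mpr ht0).map C
      have hu2 : IsUnit (C (R : ℚ) : ℚ[X]) :=
        (isUnit_iff_ne_zero.mpr (by exact_mod_cast hR0)).map C
      exact (associated_mul_unit_left _ _ hu1).trans (associated_unit_mul_right _ _ hu2)
    exact hass.squarefree_iff.mp hf.1
  have hw := wpaired lW.length (lL.length + e) (by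
    rw [hcardL, hSL, ← roots_card _ hP0]
    exact hrat) (by
    by_contra hcon
    have hW0 : lW.length = 0 := by omega
    have h1 : ∑ j, n j = 0 := by
      apply sum_eq_zero
      intro j _
      exact absurd j.2 (by omega)
    omega) g n (fun j => (hGd _).le) v (by
    intro j
    show (0 : ℝ) < if lW[j.1].natDegree = 3 then 3 / 2 else 1
    split_ifs <;> norm_num) (by
    intro j
    obtain ⟨hj1, hj2⟩ := hmemW j
    have hirr2 : Irreducible (toQ (g j)) := by
      show Irreducible (toQ (G lW[j.1]))
      rw [hG]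
      have hu2 : IsUnit (C (cc lW[j.1] : ℚ) : ℚ[X]) :=
        (isUnit_iff_ne_zero.mpr (by exact_mod_cast hcc _)).map C
      exact (associated_unit_mul_right _ _ hu2).irreducible (hirr _ hj1)
    have hjd : (g j).natDegree = n j := hGd _
    show Bdd (g j) (n j) (if n j = 3 then 3 / 2 else 1)
    split_ifs with h3
    · have := bdd_cubic (g j) (hjd.trans h3) hirr2
      rw [h3]
      exact this
    · refine bdd_small _ _ ⟨hirr2.squarefree, hjd.le, by omega⟩ ?_
      have : 1 ≤ n j := hpos _ hj1
      have : n j ≠ 1 := hj2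
      omega) h (by
    intro i
    refine Fin.addCases (fun i => ?_) (fun i => ?_) i
    · rw [hh, Fin.append_left, hGd, (hmemL i).2]
    · rw [hh, Fin.append_right, natDegree_one]
      exact Nat.zero_le _) (by rw [hsum]; exact hsq)
  rw [hsum] at hw
  have hwt : (((lL.length + e : ℕ) : ℝ) + 2 * ∑ j, v j) / 2 = (weight f q : ℝ) / 2 := by
    congr 1
    have e1 : 2 * ∑ j, v j = (((SW.map (fun p => wt p.natDegree)).sum : ℕ) : ℝ) := by
      rw [mul_sum]
      have e2 : (SW.map (fun p => wt p.natDegree)).sum = ∑ j, wt (n j) := by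
        have e3 : ∑ j, wt (n j) = (lW.map (fun p : ℚ[X] => wt p.natDegree)).sum :=
          Fin.sum_univ_fun_getElem lW (fun p : ℚ[X] => wt p.natDegree)
        rw [e3, ← Multiset.sum_coe, ← Multiset.map_coe, hlW, Multiset.coe_toList]
      rw [e2]
      push_cast
      refine sum_congr rfl fun j _ => ?_
      obtain ⟨hj1, hj2⟩ := hmemW j
      have h1 : 1 ≤ n j := hpos _ hj1
      have h2 : n j ≠ 1 := hj2
      show 2 * (if n j = 3 then (3 / 2 : ℝ) else 1) = ((wt (n j) : ℕ) : ℝ)
      unfold wt
      split_ifs with h3 h4 h4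
      · rw [h3]
        norm_num
      · omega
      · have : n j = 2 := by omega
        rw [this]
        norm_num
      · norm_num
    rw [e1]
    have e3 : weight f q = lL.length + e + (SW.map (fun p => wt p.natDegree)).sum := by
      unfold weight
      rw [← hS, ← he, ← hsplit, Multiset.map_add, Multiset.sum_add]
      have : (SL.map (fun p => wt p.natDegree)).sum = SL.card := by
        have e4 : SL.map (fun p => wt p.natDegree) = SL.map (fun _ => 1) :=
          Multiset.map_congr rfl (fun p hp => by
            rw [(Multiset.mem_filter.mp hp).2]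
            rfl)
        rw [e4, Multiset.map_const', Multiset.sum_replicate, smul_eq_mul, mul_one]
      rw [this, hcardL]
      ring
    rw [e3]
    push_cast
    ring
  rw [hwt] at hw
  exact bdd_smul f FF q _ _ _ hden hnum hrel hw

end Pool.Agent.H461.Blk
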