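import Pool.Agent.H461.Blk.FamUp
import Pool.Agent.H461.Fam.Cop

/-!
# The semistable fibres of a family, counted by conductor: the lower bound
-/

set_option autoImplicit false

namespace Pool.Agent.H461.Blk

open Finset Polynomial UniqueFactorizationMonoid Pool.Agent.W4.CF Pool.Agent.W4.VC
open Pool.Agent.H461.Fam (NoCommon Semistable Fibre cusps)
open Pool.Agent.Y670.RD (fv fvq)

theorem num_den_of {x y : ℤ} (h : IsCoprime x y) (hy : 0 < y) :
    ((x : ℚ) / y).num = x ∧ ((((x : ℚ) / y).den : ℕ) : ℤ) = y := by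
  have h1 : Nat.Coprime x.natAbs y.natAbs := Int.isCoprime_iff_gcd_eq_one.mp h
  exact ⟨Rat.num_div_eq_of_coprime hy h1, Rat.den_div_eq_of_coprime hy h1⟩

/-- a curve over a point of the right residue class -/
theorem one_curve {e : ℕ} (he : 1 ≤ e) {a b : ℤ[X]} (hF : NoCommon e a b)
    (W₀ : WeierstrassCurve ℤ) (h₀ : Semistable W₀) (t₀ : ℚ) (hf : Fibre a b t₀ W₀) :
    ∃ (M : ℕ) (Cn Cz : ℝ), 1 ≤ M ∧ 1 ≤ Cn ∧ 1 ≤ Cz ∧ ∀ (R : ℝ), 1 ≤ R → ∀ x y : ℤ,
      IsCoprime x y → 0 < y → |(x : ℝ)| ≤ R → |(y : ℝ)| ≤ R →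
      (M : ℤ) ∣ x - t₀.num → (M : ℤ) ∣ y - t₀.den → hom (a ^ 3 - b ^ 2) (6 * e) x y ≠ 0 →
      ∃ W : WeierstrassCurve ℤ, Semistable W ∧ Fibre a b ((x : ℚ) / y) W ∧
        (W.c₄, W.c₆) ∈ Cvs a b (Cn * R ^ cusps e a b) (Cz * R ^ (6 * e)) := by
  classical
  have hf0 : a ^ 3 - b ^ 2 ≠ 0 := by
    intro h0
    apply (Pool.Agent.H461.Fam.fibre_rel h₀.1 hf).1
    rw [h0, map_zero]
  obtain ⟨g, h, h', m, k, k', hk, hk', hS, hs1, hs6, hsd, hh'd, hgh', hgh, hrt, hwt⟩ :=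
    fam_sq he hF hf0
  have hg0 : g ≠ 0 := by
    rintro rfl
    have := hS.1.ne_zero
    rw [Polynomial.map_zero] at this
    exact this rfl
  obtain ⟨M, K, ν, hM, hK, hν, hcur⟩ := Pool.Agent.H461.Fam.exists_curve hF W₀ h₀ t₀ hf 1 le_rfl
  obtain ⟨M', K₂, hM', hK₂, hbez⟩ := bez_fam he hF
  obtain ⟨Ca, hCa, ha⟩ := Pool.Agent.W505.VC.hom_le a (2 * e)
  obtain ⟨Cb, hCb, hb⟩ := Pool.Agent.W505.VC.hom_le b (3 * e)
  obtain ⟨Cg, hCg, hg⟩ := Pool.Agent.W505.VC.hom_le g g.natDegree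
  have hKR : (1 : ℝ) ≤ (K : ℝ) := by exact_mod_cast hK
  have hkR : (1 : ℝ) ≤ |(k : ℝ)| := by
    have : (1 : ℤ) ≤ |k| := Int.one_le_abs hk
    exact_mod_cast this
  refine ⟨M, K * |(k : ℝ)| * Cg, (9 * Ca) ^ 3 + (27 * Cb) ^ 2, hM, ?_, ?_, ?_⟩
  · exact one_le_mul_of_one_le_of_one_le (one_le_mul_of_one_le_of_one_le hKR hkR) hCg
  · have : 1 ≤ (9 * Ca) ^ 3 := one_le_pow₀ (by linarith)
    have : 0 ≤ (27 * Cb) ^ 2 := by positivity
    linarith
  intro R hR x y hxy hy hx hyR hdx hdy hne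
  obtain ⟨W, -, -, -, -, -, hW, hfib, -, hpr⟩ := hcur x y hxy hy.ne' hdx hdy hne
  have hR0 : 0 < R := by linarith
  have hmx : max |(x : ℝ)| |(y : ℝ)| ≤ R := max_le hx hyR
  obtain ⟨hn, hd⟩ := num_den_of hxy hy
  obtain ⟨m₁, m₂, b1, b2, b3, b4, b5, b6⟩ :=
    twist_data hF M' (fun x y hxy => (hbez x y hxy).1) W hW _ hfib
  rw [hn, hd] at b5 b6
  have hm1 : (1 : ℝ) ≤ |(m₁ : ℝ)| := by
    have : (1 : ℤ) ≤ |m₁| := Int.one_le_abs b1
    exact_mod_cast this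
  have hm2 : |(m₂ : ℝ)| ≤ 3 := by
    have : |m₂| ≤ 3 := abs_le.mpr ⟨by linarith, b4⟩
    exact_mod_cast this
  have hA : |((hom a (2 * e) x y : ℤ) : ℝ)| ≤ Ca * R ^ (2 * e) := by
    refine (ha x y).trans ?_
    gcongr
  have hB : |((hom b (3 * e) x y : ℤ) : ℝ)| ≤ Cb * R ^ (3 * e) := by
    refine (hb x y).trans ?_
    gcongr
  have hc4 : |(W.c₄ : ℝ)| ≤ 9 * (Ca * R ^ (2 * e)) := by
    have e1 : (m₁ : ℝ) ^ 2 * W.c₄ = (m₂ : ℝ) ^ 2 * hom a (2 * e) x y := by exact_mod_cast b5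
    calc |(W.c₄ : ℝ)| ≤ |(m₁ : ℝ)| ^ 2 * |(W.c₄ : ℝ)| :=
          le_mul_of_one_le_left (abs_nonneg _) (one_le_pow₀ hm1)
      _ = |(m₂ : ℝ)| ^ 2 * |((hom a (2 * e) x y : ℤ) : ℝ)| := by
          rw [← abs_pow, ← abs_mul, e1, abs_mul, abs_pow]
      _ ≤ 3 ^ 2 * (Ca * R ^ (2 * e)) := by gcongr
      _ = _ := by norm_num
  have hc6 : |(W.c₆ : ℝ)| ≤ 27 * (Cb * R ^ (3 * e)) := by
    have e1 : (m₁ : ℝ) ^ 3 * W.c₆ = (m₂ : ℝ) ^ 3 * hom b (3 * e) x y := by exact_mod_cast b6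
    calc |(W.c₆ : ℝ)| ≤ |(m₁ : ℝ)| ^ 3 * |(W.c₆ : ℝ)| :=
          le_mul_of_one_le_left (abs_nonneg _) (one_le_pow₀ hm1)
      _ = |(m₂ : ℝ)| ^ 3 * |((hom b (3 * e) x y : ℤ) : ℝ)| := by
          rw [← abs_pow, ← abs_mul, e1, abs_mul, abs_pow]
      _ ≤ 3 ^ 3 * (Cb * R ^ (3 * e)) := by gcongr
      _ = _ := by norm_num
  refine ⟨W, hW, hfib, W, (x : ℚ) / y, rfl, hW, hfib, ?_, ?_, ?_⟩
  · -- the conductor
    have hGne : hom g g.natDegree x y ≠ 0 := by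
      intro h0
      apply hne
      have h1 : k' * hom (a ^ 3 - b ^ 2) (6 * e) x y = 0 := by
        have h2 : hom g (cusps e a b) x y = 0 := by
          have hsd' : cusps e a b = g.natDegree +
            (if (a ^ 3 - b ^ 2).natDegree < 6 * e then 1 else 0) := hsd
          have := Pool.Agent.W505.VC.hom_mul g 1 g.natDegree
            (if (a ^ 3 - b ^ 2).natDegree < 6 * e then 1 else 0) le_rfl (by simp) x y
          rw [mul_one, ← hsd', h0, zero_mul] at this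
          exact this
        rw [← hom_smul, hgh']
        have h3 := Pool.Agent.W505.VC.hom_mul g h' (cusps e a b) (6 * e - cusps e a b) hS.2.1
          hh'd x y
        have h4 : cusps e a b + (6 * e - cusps e a b) = 6 * e := by omega
        rw [h4, h2, zero_mul] at h3
        exact h3
      rcases mul_eq_zero.mp h1 with h2 | h2
      · exact absurd h2 hk'
      · exact h2
    have hcl := Pool.Agent.H461.Fam.cond_le W K k 1 1 y (hom g g.natDegree x y)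
      (by exact_mod_cast (by omega : K ≠ 0)) hk one_ne_zero hy.ne' hGne (one_dvd _)
      (fun p hp hpd => hpd)
      (if (a ^ 3 - b ^ 2).natDegree < 6 * e then 1 else 0) (by
        intro p hp hpd
        rcases hpr p hp hpd with h1 | h1
        · left
          exact_mod_cast h1
        · right
          rcases Pool.Agent.H461.Fam.prime_fv hk hf0 hg0 hgh (6 * e) (fam_degree hF) x y hy.ne'
            p hp h1 with h2 | h2 | h2
          · left
            exact h2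
          · right
            left
            exact ⟨if_pos h2.1, h2.2⟩
          · right
            right
            exact h2)
    have hGR : |((hom g g.natDegree x y : ℤ) : ℝ)| ≤ Cg * R ^ g.natDegree := by
      refine (hg x y).trans ?_
      gcongr
    push_cast at hcl
    simp only [abs_one, mul_one] at hcl
    refine hcl.trans ?_
    have hKa : |(K : ℝ)| = K := abs_of_nonneg (by positivity)
    rw [hKa, hsd]
    calc (K : ℝ) * |(k : ℝ)| * |(y : ℝ)| ^ (if (a ^ 3 - b ^ 2).natDegree < 6 * e then 1 else 0) *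
          |((hom g g.natDegree x y : ℤ) : ℝ)| ≤
          (K : ℝ) * |(k : ℝ)| * R ^ (if (a ^ 3 - b ^ 2).natDegree < 6 * e then 1 else 0) *
          (Cg * R ^ g.natDegree) := by gcongr
      _ = _ := by
          rw [pow_add]
          ring
  · calc |(W.c₄ : ℝ)| ^ 3 ≤ (9 * (Ca * R ^ (2 * e))) ^ 3 := by gcongr
      _ = (9 * Ca) ^ 3 * R ^ (6 * e) := by
          rw [← mul_assoc, mul_pow, ← pow_mul]
          congr 2
          ring
      _ ≤ ((9 * Ca) ^ 3 + (27 * Cb) ^ 2) * R ^ (6 * e) := by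
          gcongr
          have : 0 ≤ (27 * Cb) ^ 2 := by positivity
          linarith
  · calc (W.c₆ : ℝ) ^ 2 = |(W.c₆ : ℝ)| ^ 2 := (sq_abs _).symm
      _ ≤ (27 * (Cb * R ^ (3 * e))) ^ 2 := by gcongr
      _ = (27 * Cb) ^ 2 * R ^ (6 * e) := by
          rw [← mul_assoc, mul_pow, ← pow_mul]
          congr 2
          ring
      _ ≤ ((9 * Ca) ^ 3 + (27 * Cb) ^ 2) * R ^ (6 * e) := by
          gcongr
          have : 0 ≤ (9 * Ca) ^ 3 := by positivity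
          linarith

/-- few points have a vanishing discriminant -/
theorem few_zero (f : ℤ[X]) (hf0 : f ≠ 0) (N : ℕ) (hN : f.natDegree ≤ N) (T : Finset (ℤ × ℤ))
    (hT : ∀ p ∈ T, IsCoprime p.1 p.2 ∧ 0 < p.2 ∧ hom f N p.1 p.2 = 0) : T.card ≤ N := by
  classical
  have h1 : T.card ≤ (f.rootSet ℚ).ncard := by
    rw [← Set.ncard_coe_finset]
    apply Set.ncard_le_ncard_of_injOn (fun p : ℤ × ℤ => (p.1 : ℚ) / p.2)
    · intro p hp
      obtain ⟨h1, h2, h3⟩ := hT p hp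
      rw [mem_rootSet]
      refine ⟨hf0, ?_⟩
      have h4 := fvq hN (s := p.1) (t := p.2) h2.ne'
      have h5 : ((fv N f p.1 p.2 : ℤ) : ℚ) = 0 := by
        rw [fv_hom, h3]
        exact Int.cast_zero
      rw [h5] at h4
      have h6 : ((p.2 : ℤ) : ℚ) ≠ 0 := by exact_mod_cast h2.ne'
      exact (mul_eq_zero.mp h4.symm).resolve_left (pow_ne_zero _ h6)
    · intro p hp p' hp' hpp
      obtain ⟨h1, h2, -⟩ := hT p hp
      obtain ⟨h1', h2', -⟩ := hT p' hp'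
      obtain ⟨e1, e2⟩ := num_den_of h1 h2
      obtain ⟨e1', e2'⟩ := num_den_of h1' h2'
      have hpp' : (p.1 : ℚ) / p.2 = (p'.1 : ℚ) / p'.2 := hpp
      rw [hpp'] at e1 e2
      exact Prod.ext (e1.symm.trans e1') (e2.symm.trans e2')
  refine h1.trans (le_trans ?_ hN)
  rw [rootSet_def, Set.ncard_coe_finset, aroots_def]
  refine (Multiset.toFinset_card_le _).trans ((card_roots' _).trans natDegree_map_le)

/-- **The lower bound.** -/
theorem fam_lower {e : ℕ} (he : 1 ≤ e) {a b : ℤ[X]} (hF : NoCommon e a b)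
    (W₀ : WeierstrassCurve ℤ) (h₀ : Semistable W₀) (t₀ : ℚ) (hf : Fibre a b t₀ W₀) :
    ∃ c C X₀ : ℝ, 0 < c ∧ 1 ≤ C ∧ ∀ X : ℝ, X₀ ≤ X →
      c * X ^ (2 / (cusps e a b : ℝ)) ≤
        ((Cvs a b X (C * X ^ (6 * (e : ℝ) / (cusps e a b : ℝ)))).ncard : ℝ) := by
  classical
  have hf0 : a ^ 3 - b ^ 2 ≠ 0 := by
    intro h0
    apply (Pool.Agent.H461.Fam.fibre_rel h₀.1 hf).1
    rw [h0, map_zero]
  have hs1 : 1 ≤ cusps e a b := by
    obtain ⟨g, h, h', m, k, k', hk, hk', hS, hs1, -⟩ := fam_sq he hF hf0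
    exact hs1
  obtain ⟨M, Cn, Cz, hM, hCn, hCz, hcur⟩ := one_curve he hF W₀ h₀ t₀ hf
  obtain ⟨s, hs⟩ : ∃ s : ℕ, s = cusps e a b := ⟨_, rfl⟩
  rw [← hs] at hs1 hcur ⊢
  have hs0 : (0 : ℝ) < s := by exact_mod_cast hs1
  obtain ⟨K, hK⟩ : ∃ K : ℕ, K = t₀.num.natAbs + t₀.den + M := ⟨_, rfl⟩
  have hK1 : 1 ≤ K := by omega
  obtain ⟨M₀, hcop⟩ := Pool.Agent.H461.Fam.cop_count M hM K hK1
  have hKR : (1 : ℝ) ≤ K := by exact_mod_cast hK1
  obtain ⟨D, hD⟩ : ∃ D : ℝ, D = Cn * (K : ℝ) ^ s := ⟨_, rfl⟩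
  have hD1 : 1 ≤ D := by
    rw [hD]
    exact one_le_mul_of_one_le_of_one_le hCn (one_le_pow₀ hKR)
  have hD0 : 0 < D := by linarith
  have heR : (1 : ℝ) ≤ e := by exact_mod_cast he
  refine ⟨1 / (D ^ (2 / (s : ℝ)) * 4 * (96 * e)), Cz * (K : ℝ) ^ (6 * e),
    D * (2 * M₀ + 20 * e + 1) ^ s, by positivity,
    one_le_mul_of_one_le_of_one_le hCz (one_le_pow₀ hKR), fun X hX => ?_⟩
  have hX0 : 0 < X := lt_of_lt_of_le (by positivity) hX
  -- the size of the box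
  obtain ⟨B, hB⟩ : ∃ B : ℝ, B = (X / D) ^ (1 / (s : ℝ)) := ⟨_, rfl⟩
  have hB0 : 0 < B := by rw [hB]; positivity
  have hBs : B ^ s = X / D := by
    rw [hB, ← Real.rpow_natCast, ← Real.rpow_mul (by positivity), one_div_mul_cancel hs0.ne',
      Real.rpow_one]
  have hB1 : 2 * (M₀ : ℝ) + 20 * e + 1 ≤ B := by
    have h1 : (2 * (M₀ : ℝ) + 20 * e + 1) ^ s ≤ B ^ s := by
      rw [hBs, le_div_iff₀ hD0]
      linarith
    exact le_of_pow_le_pow_left₀ (by omega) hB0.le h1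
  obtain ⟨H, hH⟩ : ∃ H : ℕ, H = ⌊B⌋₊ := ⟨_, rfl⟩
  have hHB : (H : ℝ) ≤ B := by rw [hH]; exact Nat.floor_le hB0.le
  have hBH : B / 2 ≤ H := by
    have h1 := Nat.lt_floor_add_one B
    rw [← hH] at h1
    have h2 : (0 : ℝ) ≤ M₀ := Nat.cast_nonneg _
    linarith
  have hHM : M₀ ≤ H ∧ 10 * e ≤ H := by
    constructor
    · have : (M₀ : ℝ) ≤ H := by linarith
      exact_mod_cast this
    · have : ((10 * e : ℕ) : ℝ) ≤ H := by
        push_cast
        have h2 : (0 : ℝ) ≤ M₀ := Nat.cast_nonneg _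
        linarith
      exact_mod_cast this
  have hH1 : 1 ≤ H := by omega
  have hHR : (1 : ℝ) ≤ H := by exact_mod_cast hH1
  -- the pairs
  have hcount := hcop H H hHM.1 le_rfl t₀.num t₀.den 0 0 (by
    intro p hp _ ⟨h1, h2⟩
    have hc : IsCoprime t₀.num (t₀.den : ℤ) := by
      rw [Int.isCoprime_iff_gcd_eq_one]
      exact t₀.reduced
    exact (Nat.prime_iff_prime_int.1 hp).not_isUnit (hc.isUnit_of_dvd' h1 h2)) (by
    intro j hj
    rw [mem_Ico] at hj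
    obtain ⟨hj0, hj1⟩ := hj
    rw [abs_of_nonneg (by positivity)]
    have h1 : (M : ℤ) * j ≤ M * H := by
      apply mul_le_mul_of_nonneg_left (by omega) (by positivity)
    have h2 : (t₀.den : ℤ) * 1 ≤ t₀.den * H := by
      apply mul_le_mul_of_nonneg_left (by exact_mod_cast hH1) (by positivity)
    have h3 : (0 : ℤ) ≤ (t₀.num.natAbs : ℤ) * H := by positivity
    rw [hK]
    push_cast at h3 ⊢
    linarith)
  obtain ⟨T, hT⟩ : ∃ T : Finset (ℤ × ℤ), T = ((Ico (0 : ℤ) (0 + H) ×ˢ Ico (0 : ℤ) (0 + H)).filter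
      (fun t => IsCoprime (t₀.num + M * t.1) ((t₀.den : ℤ) + M * t.2))).image
      (fun t => (t₀.num + M * t.1, (t₀.den : ℤ) + M * t.2)) := ⟨_, rfl⟩
  have hinj : Function.Injective (fun t : ℤ × ℤ => (t₀.num + M * t.1, (t₀.den : ℤ) + M * t.2)) := by
    intro t t' h
    have h1 : t₀.num + M * t.1 = t₀.num + M * t'.1 := congrArg Prod.fst h
    have h2 : (t₀.den : ℤ) + M * t.2 = t₀.den + M * t'.2 := congrArg Prod.snd h
    have hM0 : (M : ℤ) ≠ 0 := by exact_mod_cast (by omega : M ≠ 0)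
    exact Prod.ext (mul_left_cancel₀ hM0 (by linarith)) (mul_left_cancel₀ hM0 (by linarith))
  have hTcard : (H : ℝ) * H / 8 ≤ T.card := by
    rw [hT, card_image_of_injective _ hinj]
    exact hcount
  have hTmem : ∀ p ∈ T, IsCoprime p.1 p.2 ∧ 0 < p.2 ∧ |(p.1 : ℝ)| ≤ K * H ∧ |(p.2 : ℝ)| ≤ K * H ∧
      (M : ℤ) ∣ p.1 - t₀.num ∧ (M : ℤ) ∣ p.2 - t₀.den := by
    intro p hp
    rw [hT, mem_image] at hp
    obtain ⟨t, ht, rfl⟩ := hp
    rw [mem_filter, mem_product, mem_Ico, mem_Ico] at ht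
    obtain ⟨⟨⟨i1, i2⟩, j1, j2⟩, hc⟩ := ht
    have hden : (0 : ℤ) < t₀.den := by exact_mod_cast t₀.den_pos
    have hi : (M : ℤ) * t.1 ≤ M * H := mul_le_mul_of_nonneg_left (by omega) (by positivity)
    have hj : (M : ℤ) * t.2 ≤ M * H := mul_le_mul_of_nonneg_left (by omega) (by positivity)
    have hi0 : 0 ≤ (M : ℤ) * t.1 := by positivity
    have hj0 : 0 ≤ (M : ℤ) * t.2 := by positivity
    have hnH : |t₀.num| * 1 ≤ |t₀.num| * H :=
      mul_le_mul_of_nonneg_left (by exact_mod_cast hH1) (abs_nonneg _)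
    have hdH : (t₀.den : ℤ) * 1 ≤ t₀.den * H :=
      mul_le_mul_of_nonneg_left (by exact_mod_cast hH1) hden.le
    have hKZ : (K : ℤ) = |t₀.num| + t₀.den + M := by
      rw [hK]
      push_cast
      ring
    have b1 : |t₀.num + M * t.1| ≤ K * H := by
      refine (abs_add_le _ _).trans ?_
      rw [abs_of_nonneg hi0, hKZ]
      nlinarith
    have b2 : |(t₀.den : ℤ) + M * t.2| ≤ K * H := by
      rw [abs_of_nonneg (by linarith), hKZ]
      have : 0 ≤ |t₀.num| * (H : ℤ) := by positivity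
      nlinarith
    refine ⟨hc, by linarith, ?_, ?_, ⟨t.1, by ring⟩, ⟨t.2, by ring⟩⟩
    · exact_mod_cast b1
    · exact_mod_cast b2
  -- remove the zeros
  set T' := T.filter (fun p => hom (a ^ 3 - b ^ 2) (6 * e) p.1 p.2 ≠ 0) with hT'
  have hbad : (T.filter (fun p => ¬ hom (a ^ 3 - b ^ 2) (6 * e) p.1 p.2 ≠ 0)).card ≤ 6 * e := by
    apply few_zero _ hf0 _ (fam_degree hF)
    intro p hp
    rw [mem_filter, not_not] at hp
    exact ⟨(hTmem p hp.1).1, (hTmem p hp.1).2.1, hp.2⟩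
  have hT'card : (H : ℝ) * H / 16 ≤ T'.card := by
    have h1 := card_filter_add_card_filter_not (s := T)
      (fun p => hom (a ^ 3 - b ^ 2) (6 * e) p.1 p.2 ≠ 0)
    rw [← hT'] at h1
    have h2 : (T'.card : ℝ) + ((T.filter
      (fun p => ¬ hom (a ^ 3 - b ^ 2) (6 * e) p.1 p.2 ≠ 0)).card : ℝ) = T.card := by
      exact_mod_cast h1
    have h3 : ((T.filter
      (fun p => ¬ hom (a ^ 3 - b ^ 2) (6 * e) p.1 p.2 ≠ 0)).card : ℝ) ≤ 6 * e := by
      exact_mod_cast hbad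
    have h4 : (10 : ℝ) * e ≤ H := by exact_mod_cast hHM.2
    have h5 : (10 * (e : ℝ)) * (10 * e) ≤ H * H := by gcongr
    nlinarith
  -- the curves
  have hR1 : (1 : ℝ) ≤ K * H := one_le_mul_of_one_le_of_one_le hKR hHR
  have hcur' : ∀ p ∈ T', ∃ W : WeierstrassCurve ℤ, Semistable W ∧
      Fibre a b ((p.1 : ℚ) / p.2) W ∧
      (W.c₄, W.c₆) ∈ Cvs a b (Cn * (K * H) ^ s) (Cz * (K * H) ^ (6 * e)) := by
    intro p hp
    rw [hT', mem_filter] at hp
    obtain ⟨h1, h2, h3, h4, h5, h6⟩ := hTmem p hp.1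
    exact hcur (K * H) hR1 p.1 p.2 h1 h2 h3 h4 h5 h6 hp.2
  choose! W hW1 hW2 hW3 using hcur'
  have hfib : ∀ q ∈ T'.image (fun p => ((W p).c₄, (W p).c₆)),
      (T'.filter (fun p => ((W p).c₄, (W p).c₆) = q)).card ≤ 6 * e := by
    intro q hq
    rw [mem_image] at hq
    obtain ⟨p0, hp0, rfl⟩ := hq
    have hne : (W p0).c₄ ≠ 0 ∨ (W p0).c₆ ≠ 0 := by
      by_contra hcon
      push Not at hcon
      have h1 := (W p0).c_relation
      rw [hcon.1, hcon.2] at h1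
      have h2 : (W p0).Δ = 0 := by
        have : 1728 * (W p0).Δ = 0 := by rw [h1]; norm_num
        omega
      exact (hW1 p0 hp0).1 h2
    set U := T'.filter (fun p => ((W p).c₄, (W p).c₆) = ((W p0).c₄, (W p0).c₆)) with hU
    have hUinj : Set.InjOn (fun p : ℤ × ℤ => (p.1 : ℚ) / p.2) (U : Set (ℤ × ℤ)) := by
      intro p hp p' hp' hpp
      rw [Finset.mem_coe, hU, mem_filter, hT', mem_filter] at hp hp'
      obtain ⟨h1, h2, -⟩ := hTmem p hp.1.1
      obtain ⟨h1', h2', -⟩ := hTmem p' hp'.1.1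
      obtain ⟨e1, e2⟩ := num_den_of h1 h2
      obtain ⟨e1', e2'⟩ := num_den_of h1' h2'
      have hpp' : (p.1 : ℚ) / p.2 = (p'.1 : ℚ) / p'.2 := hpp
      rw [hpp'] at e1 e2
      exact Prod.ext (e1.symm.trans e1') (e2.symm.trans e2')
    rw [← card_image_of_injOn hUinj]
    apply Pool.Agent.H461.Fam.mult_bound he hF (W p0).c₄ (W p0).c₆ hne
    intro t ht
    rw [mem_image] at ht
    obtain ⟨p, hp, rfl⟩ := ht
    rw [hU, mem_filter] at hp
    obtain ⟨l, hl, hl1, hl2⟩ := hW2 p hp.1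
    have e1 : (W p).c₄ = (W p0).c₄ := congrArg Prod.fst hp.2
    have e2 : (W p).c₆ = (W p0).c₆ := congrArg Prod.snd hp.2
    rw [e1] at hl1
    rw [e2] at hl2
    exact ⟨l, hl, hl1, hl2⟩
  have himg := Pool.Agent.H461.Fam.card_image_ge T' (fun p => ((W p).c₄, (W p).c₆)) (6 * e)
    (by omega) hfib
  have hsub : ((T'.image (fun p => ((W p).c₄, (W p).c₆)) : Finset (ℤ × ℤ)) : Set (ℤ × ℤ)) ⊆
      Cvs a b X (Cz * (K : ℝ) ^ (6 * e) * X ^ (6 * (e : ℝ) / (s : ℝ))) := by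
    intro q hq
    rw [Finset.mem_coe, mem_image] at hq
    obtain ⟨p, hp, rfl⟩ := hq
    obtain ⟨V, t, h1, h2, h3, h4, h5, h6⟩ := hW3 p hp
    have hZ : Cz * ((K : ℝ) * H) ^ (6 * e) ≤
        Cz * (K : ℝ) ^ (6 * e) * X ^ (6 * (e : ℝ) / (s : ℝ)) := by
      rw [mul_pow, ← mul_assoc]
      have h7 : (H : ℝ) ^ (6 * e) ≤ X ^ (6 * (e : ℝ) / (s : ℝ)) := by
        calc (H : ℝ) ^ (6 * e) ≤ B ^ (6 * e) := by gcongr
          _ = (X / D) ^ (6 * (e : ℝ) / (s : ℝ)) := by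
              rw [hB, ← Real.rpow_natCast, ← Real.rpow_mul (by positivity)]
              congr 1
              push_cast
              field_simp
          _ ≤ X ^ (6 * (e : ℝ) / (s : ℝ)) := by
              apply Real.rpow_le_rpow (by positivity) _ (by positivity)
              exact div_le_self hX0.le hD1
      gcongr
    refine ⟨V, t, h1, h2, h3, h4.trans ?_, h5.trans hZ, h6.trans hZ⟩
    calc Cn * ((K : ℝ) * H) ^ s = D * (H : ℝ) ^ s := by rw [hD, mul_pow]; ring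
      _ ≤ D * B ^ s := by gcongr
      _ = X := by rw [hBs]; field_simp
  have hfin := cvs_finite a b X (Cz * (K : ℝ) ^ (6 * e) * X ^ (6 * (e : ℝ) / (s : ℝ)))
  have h7 : ((T'.image (fun p => ((W p).c₄, (W p).c₆))).card : ℝ) ≤
      ((Cvs a b X (Cz * (K : ℝ) ^ (6 * e) * X ^ (6 * (e : ℝ) / (s : ℝ)))).ncard : ℝ) := by
    rw [← Set.ncard_coe_finset]
    exact_mod_cast Set.ncard_le_ncard hsub hfin
  refine le_trans ?_ h7
  refine le_trans ?_ himg
  have hB2 : B ^ 2 = X ^ (2 / (s : ℝ)) / D ^ (2 / (s : ℝ)) := by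
    rw [hB, ← Real.rpow_natCast, ← Real.rpow_mul (by positivity),
      Real.div_rpow hX0.le hD0.le]
    have : 1 / (s : ℝ) * ((2 : ℕ) : ℝ) = 2 / s := by
      push_cast
      ring
    rw [this]
  have h8 : B ^ 2 / 4 ≤ (H : ℝ) * H := by
    have : (B / 2) * (B / 2) ≤ (H : ℝ) * H := by gcongr
    calc B ^ 2 / 4 = (B / 2) * (B / 2) := by ring
      _ ≤ _ := this
  push_cast
  calc 1 / (D ^ (2 / (s : ℝ)) * 4 * (96 * e)) * X ^ (2 / (s : ℝ)) = B ^ 2 / 4 / 16 / (6 * e) := by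
        rw [hB2]
        field_simp
        ring
    _ ≤ (H : ℝ) * H / 16 / (6 * e) := by gcongr
    _ ≤ (T'.card : ℝ) / (6 * e) := by gcongr

end Pool.Agent.H461.Blk
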