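import Pool.Agent.H461.Blk.Fact
import Pool.Agent.H461.Fam.Main
import Pool.Graph.R_seed8.TH498.KB.Fam

/-!
# The squarefree part of the discriminant form of a family and its weight
-/

set_option autoImplicit false

namespace Pool.Agent.H461.Blk

open Finset Polynomial UniqueFactorizationMonoid Pool.Agent.W4.CF Pool.Agent.W4.VC
open Pool.Agent.H461.Fam (NoCommon Semistable cond Fibre cusps)
open Pool.Agent.Y670.RD (fv fvq)

theorem fv_hom (N : ℕ) (f : ℤ[X]) (x y : ℤ) : fv N f x y = hom f N x y := rfl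

open Classical in
/-- the weight of the cusps -/
noncomputable def famWeight (e : ℕ) (a b : ℤ[X]) : ℕ :=
  ∑ p ∈ (normalizedFactors ((a ^ 3 - b ^ 2).map (Int.castRingHom ℚ))).toFinset,
    (if p.natDegree ≤ 3 then p.natDegree else 2) +
    if (a ^ 3 - b ^ 2).natDegree < 6 * e then 1 else 0

/-- the number of the rational cusps -/
noncomputable def ratCusps (e : ℕ) (a b : ℤ[X]) : ℕ :=
  ((a ^ 3 - b ^ 2).rootSet ℚ).ncard + if (a ^ 3 - b ^ 2).natDegree < 6 * e then 1 else 0

theorem fam_degree {e : ℕ} {a b : ℤ[X]} (hF : NoCommon e a b) :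
    (a ^ 3 - b ^ 2).natDegree ≤ 6 * e := by
  obtain ⟨ha, hb, -, -⟩ := hF
  refine (natDegree_sub_le _ _).trans (max_le ?_ ?_)
  · refine natDegree_pow_le.trans ?_
    omega
  · refine natDegree_pow_le.trans ?_
    omega

/-- the squarefree part -/
theorem fam_sq {e : ℕ} (he : 1 ≤ e) {a b : ℤ[X]} (hF : NoCommon e a b) (hf0 : a ^ 3 - b ^ 2 ≠ 0) :
    ∃ (g h h' : ℤ[X]) (m : ℕ) (k k' : ℤ), k ≠ 0 ∧ k' ≠ 0 ∧ Sqf g (cusps e a b) ∧
      1 ≤ cusps e a b ∧ cusps e a b ≤ 6 * e ∧
      cusps e a b = g.natDegree + (if (a ^ 3 - b ^ 2).natDegree < 6 * e then 1 else 0) ∧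
      h'.natDegree ≤ 6 * e - cusps e a b ∧ C k' * (a ^ 3 - b ^ 2) = g * h' ∧
      C k * g ^ m = (a ^ 3 - b ^ 2) * h ∧
      (toQ g).roots.card + (cusps e a b - g.natDegree) = ratCusps e a b ∧
      weight g (cusps e a b) = famWeight e a b := by
  classical
  set f : ℤ[X] := a ^ 3 - b ^ 2 with hf
  have hfd : f.natDegree ≤ 6 * e := fam_degree hF
  obtain ⟨g, h, h', m, k, k', hk, hk', hgsq, hgd, hgh, hgh'⟩ := Pool.Agent.H461.Fam.exists_sqf f hf0
  set δ : ℕ := if f.natDegree < 6 * e then 1 else 0 with hδ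
  have hsd : cusps e a b = g.natDegree + δ := by
    rw [hgd]
    rfl
  have hg0 : g ≠ 0 := by
    rintro rfl
    rw [zero_mul] at hgh'
    exact mul_ne_zero (C_ne_zero.2 hk') hf0 hgh'
  have hh'0 : h' ≠ 0 := by
    rintro rfl
    rw [mul_zero] at hgh'
    exact mul_ne_zero (C_ne_zero.2 hk') hf0 hgh'
  have hh0 : h ≠ 0 := by
    rintro rfl
    rw [mul_zero] at hgh
    exact mul_ne_zero (C_ne_zero.2 hk) (pow_ne_zero _ hg0) hgh
  have hd1 : f.natDegree = g.natDegree + h'.natDegree := by
    rw [← natDegree_mul hg0 hh'0, ← hgh', natDegree_C_mul hk']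
  have hd2 : m * g.natDegree = f.natDegree + h.natDegree := by
    rw [← natDegree_mul hf0 hh0, ← hgh, natDegree_C_mul hk, natDegree_pow]
  have hδ1 : δ ≤ 1 := by rw [hδ]; split_ifs <;> omega
  have hδ2 : f.natDegree + δ ≤ 6 * e := by rw [hδ]; split_ifs <;> omega
  have hδ3 : δ = 0 → f.natDegree = 6 * e := by
    intro h0
    rw [hδ] at h0
    split_ifs at h0
    omega
  have hs1 : 1 ≤ cusps e a b := by
    rw [hsd]
    by_contra hcon
    have h1 : g.natDegree = 0 := by omega
    have h2 := hδ3 (by omega)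
    rw [h1, mul_zero] at hd2
    omega
  have hroot : ∀ x : ℚ, aeval x g = 0 ↔ aeval x f = 0 := by
    intro x
    have e1 := congrArg (aeval x) hgh'
    have e2 := congrArg (aeval x) hgh
    simp only [map_mul, map_pow, aeval_C] at e1 e2
    constructor
    · intro h0
      rw [h0, zero_mul] at e1
      exact (mul_eq_zero.mp e1).resolve_left (by
        rw [eq_intCast]
        exact_mod_cast hk')
    · intro h0
      rw [h0, zero_mul] at e2
      have := (mul_eq_zero.mp e2).resolve_left (by
        rw [eq_intCast]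
        exact_mod_cast hk)
      exact eq_zero_of_pow_eq_zero this
  refine ⟨g, h, h', m, k, k', hk, hk', ⟨hgsq, by omega, by omega⟩, hs1, by omega, hsd, by omega,
    hgh', hgh, ?_, ?_⟩
  · have hsep : (toQ g).Separable := PerfectField.separable_iff_squarefree.2 hgsq
    have hnd : (toQ g).roots.Nodup := nodup_roots hsep
    have e1 : (toQ g).roots.card = (f.rootSet ℚ).ncard := by
      rw [← Multiset.toFinset_card_of_nodup hnd, ← Set.ncard_coe_finset]
      congr 1
      ext x
      have hQ0 : toQ g ≠ 0 := hgsq.ne_zero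
      rw [Finset.mem_coe, Multiset.mem_toFinset, mem_roots hQ0, mem_rootSet, IsRoot.def]
      have e2 : (toQ g).eval x = aeval x g := (Pool.Agent.H461.Fam.aeval_map g x).symm
      rw [e2, hroot x]
      exact ⟨fun h => ⟨hf0, h⟩, fun h => h.2⟩
    rw [e1, hsd]
    unfold ratCusps
    rw [← hf, ← hδ]
    omega
  · have hQg : toQ g ≠ 0 := hgsq.ne_zero
    have hQf : toQ f ≠ 0 := by
      intro h0
      apply hf0
      apply toQ_inj
      rw [h0]
      exact (Polynomial.map_zero _).symm
    have hdvd : ∀ p : ℚ[X], Irreducible p → (p ∣ toQ g ↔ p ∣ toQ f) := by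
      intro p hp
      have hpr : Prime p := hp.prime
      have c1 : IsUnit (C (k' : ℚ) : ℚ[X]) :=
        (isUnit_iff_ne_zero.mpr (by exact_mod_cast hk')).map C
      have c2 : IsUnit (C (k : ℚ) : ℚ[X]) :=
        (isUnit_iff_ne_zero.mpr (by exact_mod_cast hk)).map C
      have e1 : C (k' : ℚ) * toQ f = toQ g * toQ h' := by
        rw [← toQ_C, ← toQ_mul, hgh', toQ_mul]
      have e2 : C (k : ℚ) * toQ g ^ m = toQ f * toQ h := by
        have : toQ (C k * g ^ m) = toQ (f * h) := by rw [hgh]
        rw [toQ_mul, toQ_mul, toQ_C] at this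
        rw [← this]
        congr 1
        exact (Polynomial.map_pow _ _).symm
      constructor
      · intro h1
        have h2 : p ∣ C (k' : ℚ) * toQ f := by
          rw [e1]
          exact h1.mul_right _
        exact (c1.dvd_mul_left).mp h2
      · intro h1
        have h2 : p ∣ C (k : ℚ) * toQ g ^ m := by
          rw [e2]
          exact h1.mul_right _
        exact hpr.dvd_of_dvd_pow ((c2.dvd_mul_left).mp h2)
    have hnd : (normalizedFactors (toQ g)).Nodup :=
      (squarefree_iff_nodup_normalizedFactors hQg).mp hgsq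
    have hset : (normalizedFactors (toQ f)).toFinset = (normalizedFactors (toQ g)).toFinset := by
      ext p
      rw [Multiset.mem_toFinset, Multiset.mem_toFinset, mem_normalizedFactors_iff' hQf,
        mem_normalizedFactors_iff' hQg]
      constructor
      · rintro ⟨h1, h2, h3⟩
        exact ⟨h1, h2, (hdvd p h1).mpr h3⟩
      · rintro ⟨h1, h2, h3⟩
        exact ⟨h1, h2, (hdvd p h1).mp h3⟩
    unfold weight famWeight
    have e3 : (normalizedFactors (f.map (Int.castRingHom ℚ))).toFinset =
        (normalizedFactors (toQ g)).toFinset := hset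
    rw [← hf, e3, ← hδ, hsd, Nat.add_sub_cancel_left, add_comm]
    congr 1
    unfold Finset.sum
    rw [Multiset.toFinset_val, hnd.dedup]
    rfl

end Pool.Agent.H461.Blk
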