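import Pool.Agent.H461.Blk.FamSq
import Pool.Graph.R_seed8.TH498.KB.Kub1
import Pool.Graph.R_seed8.TH498.KB.Kub2

/-!
# The families of the elliptic curves with a rational point of order seven or nine
-/

set_option autoImplicit false

namespace Pool.Agent.H461.Blk

open Finset Polynomial Pool.Agent.TH498.KB
open Pool.Agent.H461.Fam (NoCommon cusps Semistable Fibre)

theorem isUnit_ofNat (n : ℕ) (hn : n ≠ 0) : IsUnit ((n : ℕ) : ℚ[X]) := by
  rw [← Polynomial.C_eq_natCast, isUnit_C]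
  exact isUnit_iff_ne_zero.mpr (by exact_mod_cast hn)

theorem nocommon_of_fam (a1 a2 a3 : ℤ[X]) (k w L : ℕ)
    (h : Fam (27 * c4p a1 a2 a3) (54 * c6p a1 a2 a3) k w L)
    (hd : (c4p a1 a2 a3).natDegree = 4 * k) (hk : 1 ≤ k) :
    NoCommon (2 * k) (c4p a1 a2 a3) (c6p a1 a2 a3) := by
  have hCn : ∀ (m : ℕ) (p : ℤ[X]), m ≠ 0 → ((m : ℤ[X]) * p).natDegree = p.natDegree := by
    intro m p hm
    rw [← Polynomial.C_eq_natCast]
    exact natDegree_C_mul (by exact_mod_cast hm)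
  refine ⟨by omega, ?_, ?_, Or.inl ?_⟩
  · have h1 := h.hB
    have h2 := hCn 54 (c6p a1 a2 a3) (by norm_num)
    push_cast at h2
    rw [h2] at h1
    omega
  · have h1 := h.hcop
    rw [Polynomial.map_mul, Polynomial.map_mul] at h1
    exact h1.of_mul_left_right.of_mul_right_right
  · have h1 : 2 * (2 * k) = (c4p a1 a2 a3).natDegree := by omega
    rw [h1]
    intro h0
    have h2 : c4p a1 a2 a3 = 0 := leadingCoeff_eq_zero.mp h0
    rw [h2, natDegree_zero] at hd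
    omega

theorem cusps_of (e : ℕ) (a b g h h' : ℤ[X]) (m : ℕ) (k k' : ℤ) (hk : k ≠ 0) (hk' : k' ≠ 0)
    (hf0 : a ^ 3 - b ^ 2 ≠ 0) (hsq : Squarefree (g.map (Int.castRingHom ℚ)))
    (r1 : C k * g ^ m = (a ^ 3 - b ^ 2) * h) (r2 : C k' * (a ^ 3 - b ^ 2) = g * h') :
    cusps e a b = g.natDegree + if (a ^ 3 - b ^ 2).natDegree < 6 * e then 1 else 0 := by
  unfold cusps
  congr 1
  have hg0 : g ≠ 0 := by
    rintro rfl
    rw [zero_mul] at r2
    exact mul_ne_zero (C_ne_zero.2 hk') hf0 r2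
  have hsep : (g.map (Int.castRingHom ℚ)).Separable :=
    (PerfectField.separable_iff_squarefree).2 hsq
  have h1 := card_rootSet_eq_natDegree (K := ℂ) hsep (IsAlgClosed.splits _)
  rw [natDegree_map_eq_of_injective (RingHom.injective_int (Int.castRingHom ℚ))] at h1
  rw [← h1, ← Nat.card_eq_fintype_card, Nat.card_coe_set_eq]
  congr 1
  ext z
  rw [mem_rootSet, mem_rootSet]
  have e : aeval z (g.map (Int.castRingHom ℚ)) = aeval z g := aeval_map_algebraMap (A := ℚ) z g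
  rw [e]
  have e1 := congrArg (aeval z) r2
  have e2 := congrArg (aeval z) r1
  simp only [map_mul, map_pow, aeval_C] at e1 e2
  constructor
  · rintro ⟨-, h3⟩
    refine ⟨hsq.ne_zero, ?_⟩
    rw [h3, zero_mul] at e2
    have := (mul_eq_zero.mp e2).resolve_left (by
      rw [eq_intCast]
      exact_mod_cast hk)
    exact eq_zero_of_pow_eq_zero this
  · rintro ⟨-, h3⟩
    refine ⟨hf0, ?_⟩
    rw [h3, zero_mul] at e1
    exact (mul_eq_zero.mp e1).resolve_left (by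
      rw [eq_intCast]
      exact_mod_cast hk')

/-- the properties of a family used in the counting theorem -/
def Good (e : ℕ) (a b : ℤ[X]) (s : ℕ) : Prop :=
  NoCommon e a b ∧ ratCusps e a b ≠ 1 ∧ cusps e a b = s ∧
    (∀ p : ℚ[X], Irreducible p → p ∣ (a ^ 3 - b ^ 2).map (Int.castRingHom ℚ) → p.natDegree ≤ 3)

theorem deg_le_of_dvd {p q : ℚ[X]} (h : p ∣ q) (hq : q ≠ 0) (hd : q.natDegree ≤ 3) :
    p.natDegree ≤ 3 := (natDegree_le_of_dvd h hq).trans hd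

theorem good_z7 : Good 4 (c4p a1_z7 a2_z7 a3_z7) (c6p a1_z7 a2_z7 a3_z7) 6 := by
  have c4e := c4_z7
  have hdeg : (c4p a1_z7 a2_z7 a3_z7).natDegree = 4 * 2 := by
    rw [c4e]
    compute_degree!
  have hN := nocommon_of_fam a1_z7 a2_z7 a3_z7 2 1 3 fam_z7 hdeg (by norm_num)
  have hf : c4p a1_z7 a2_z7 a3_z7 ^ 3 - c6p a1_z7 a2_z7 a3_z7 ^ 2 =
      1728 * (X ^ 7 * (X - 1) ^ 7 * (X ^ 3 - 8 * X ^ 2 + 5 * X + 1)) := by
    rw [c_id, D_z7]
  have hfe : (1728 * (X ^ 7 * (X - 1) ^ 7 * (X ^ 3 - 8 * X ^ 2 + 5 * X + 1)) : ℤ[X]) =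
      C 1728 * (X ^ 7 * (X - C 1) ^ 7 * (X ^ 3 - 8 * X ^ 2 + 5 * X + 1)) := by
    simp
  have hcub : (X ^ 3 - 8 * X ^ 2 + 5 * X + 1 : ℤ[X]).natDegree = 3 := by compute_degree!
  have hcub0 : (X ^ 3 - 8 * X ^ 2 + 5 * X + 1 : ℤ[X]) ≠ 0 := by
    intro h0
    rw [h0, natDegree_zero] at hcub
    omega
  have hfd : (c4p a1_z7 a2_z7 a3_z7 ^ 3 - c6p a1_z7 a2_z7 a3_z7 ^ 2).natDegree = 17 := by
    rw [hf, hfe, natDegree_C_mul (by norm_num), natDegree_mul, natDegree_mul, natDegree_pow,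
      natDegree_pow, natDegree_X, natDegree_X_sub_C, hcub]
    · exact pow_ne_zero _ X_ne_zero
    · exact pow_ne_zero _ (X_sub_C_ne_zero 1)
    · exact mul_ne_zero (pow_ne_zero _ X_ne_zero) (pow_ne_zero _ (X_sub_C_ne_zero 1))
    · exact hcub0
  have hf0 : c4p a1_z7 a2_z7 a3_z7 ^ 3 - c6p a1_z7 a2_z7 a3_z7 ^ 2 ≠ 0 := by
    intro h0
    rw [h0, natDegree_zero] at hfd
    omega
  have hsq : Squarefree ((X ^ 5 - 9 * X ^ 4 + 13 * X ^ 3 - 4 * X ^ 2 - X : ℤ[X]).map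
      (Int.castRingHom ℚ)) := by
    have hd : derivative (X ^ 5 - 9 * X ^ 4 + 13 * X ^ 3 - 4 * X ^ 2 - X : ℤ[X]) =
        5 * X ^ 4 - 36 * X ^ 3 + 39 * X ^ 2 - 8 * X - 1 := by
      simp <;> ring
    have h4 := cert (X ^ 5 - 9 * X ^ 4 + 13 * X ^ 3 - 4 * X ^ 2 - X)
      (5 * X ^ 4 - 36 * X ^ 3 + 39 * X ^ 2 - 8 * X - 1)
      (-1020 * X ^ 3 + 6769 * X ^ 2 - 4366 * X + 602)
      (204 * X ^ 4 - 1721 * X ^ 3 + 1727 * X ^ 2 - 210 * X - 49) 49 (by norm_num)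
      (by push_cast; ring)
    rw [← hd, ← derivative_map] at h4
    exact Separable.squarefree h4
  refine ⟨hN, ?_, ?_, ?_⟩
  · unfold ratCusps
    rw [hfd, if_pos (by norm_num)]
    have h1 : 0 < ((c4p a1_z7 a2_z7 a3_z7 ^ 3 - c6p a1_z7 a2_z7 a3_z7 ^ 2).rootSet ℚ).ncard := by
      rw [Set.ncard_pos]
      refine ⟨0, ?_⟩
      rw [mem_rootSet]
      refine ⟨hf0, ?_⟩
      rw [hf]
      simp
    omega
  · rw [cusps_of 4 _ _ (X ^ 5 - 9 * X ^ 4 + 13 * X ^ 3 - 4 * X ^ 2 - X)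
      ((X ^ 3 - 8 * X ^ 2 + 5 * X + 1) ^ 6) (1728 * (X ^ 6 * (X - 1) ^ 6)) 7 1728 1 (by norm_num)
      one_ne_zero hf0 hsq (by
        rw [hf]
        have : (C 1728 : ℤ[X]) = 1728 := rfl
        rw [this]
        ring) (by
        rw [hf, C_1]
        ring), hfd, if_pos (by norm_num)]
    have : (X ^ 5 - 9 * X ^ 4 + 13 * X ^ 3 - 4 * X ^ 2 - X : ℤ[X]).natDegree = 5 := by
      compute_degree!
    rw [this]
  · intro p hp hpd
    rw [hf] at hpd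
    have hpr := hp.prime
    simp only [Polynomial.map_mul, Polynomial.map_pow] at hpd
    rcases hpr.dvd_or_dvd hpd with h1 | h1
    · refine deg_le_of_dvd h1 ?_ ?_
      · rw [Polynomial.map_ofNat]
        norm_num
      · rw [Polynomial.map_ofNat]
        have : ((1728 : ℕ) : ℚ[X]).natDegree = 0 := natDegree_natCast 1728
        push_cast at this
        omega
    · rcases hpr.dvd_or_dvd h1 with h2 | h2
      · rcases hpr.dvd_or_dvd h2 with h3 | h3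
        · have h4 := hpr.dvd_of_dvd_pow h3
          rw [map_X] at h4
          exact deg_le_of_dvd h4 X_ne_zero (by rw [natDegree_X]; norm_num)
        · have h4 := hpr.dvd_of_dvd_pow h3
          have h5 : (X - 1 : ℤ[X]).map (Int.castRingHom ℚ) = X - C 1 := by simp
          rw [h5] at h4
          exact deg_le_of_dvd h4 (X_sub_C_ne_zero 1) (by rw [natDegree_X_sub_C]; norm_num)
      · refine deg_le_of_dvd h2 ?_ ?_
        · exact (Polynomial.map_ne_zero_iff (RingHom.injective_int _)).mpr hcub0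
        · exact natDegree_map_le.trans hcub.le

theorem good_z9 : Good 6 (c4p a1_z9 a2_z9 a3_z9) (c6p a1_z9 a2_z9 a3_z9) 8 := by
  have c4e := c4_z9
  have hdeg : (c4p a1_z9 a2_z9 a3_z9).natDegree = 4 * 3 := by
    rw [c4e]
    compute_degree!
  have hN := nocommon_of_fam a1_z9 a2_z9 a3_z9 3 2 3 fam_z9 hdeg (by norm_num)
  have hf : c4p a1_z9 a2_z9 a3_z9 ^ 3 - c6p a1_z9 a2_z9 a3_z9 ^ 2 =
      1728 * (X ^ 9 * (X - 1) ^ 9 * (X ^ 2 - X + 1) ^ 3 * (X ^ 3 - 6 * X ^ 2 + 3 * X + 1)) := by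
    rw [c_id, D_z9]
  have hfe : (1728 * (X ^ 9 * (X - 1) ^ 9 * (X ^ 2 - X + 1) ^ 3 *
      (X ^ 3 - 6 * X ^ 2 + 3 * X + 1)) : ℤ[X]) =
      C 1728 * (X ^ 9 * (X - C 1) ^ 9 * (X ^ 2 - X + 1) ^ 3 *
      (X ^ 3 - 6 * X ^ 2 + 3 * X + 1)) := by
    simp
  have hcub : (X ^ 3 - 6 * X ^ 2 + 3 * X + 1 : ℤ[X]).natDegree = 3 := by compute_degree!
  have hcub0 : (X ^ 3 - 6 * X ^ 2 + 3 * X + 1 : ℤ[X]) ≠ 0 := by
    intro h0
    rw [h0, natDegree_zero] at hcub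
    omega
  have hqu : (X ^ 2 - X + 1 : ℤ[X]).natDegree = 2 := by compute_degree!
  have hqu0 : (X ^ 2 - X + 1 : ℤ[X]) ≠ 0 := by
    intro h0
    rw [h0, natDegree_zero] at hqu
    omega
  have hfd : (c4p a1_z9 a2_z9 a3_z9 ^ 3 - c6p a1_z9 a2_z9 a3_z9 ^ 2).natDegree = 27 := by
    have k1 : (X ^ 9 * (X - C 1) ^ 9 : ℤ[X]) ≠ 0 :=
      mul_ne_zero (pow_ne_zero _ X_ne_zero) (pow_ne_zero _ (X_sub_C_ne_zero 1))
    have k2 : (X ^ 9 * (X - C 1) ^ 9 * (X ^ 2 - X + 1) ^ 3 : ℤ[X]) ≠ 0 :=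
      mul_ne_zero k1 (pow_ne_zero _ hqu0)
    rw [hf, hfe, natDegree_C_mul (by norm_num), natDegree_mul k2 hcub0,
      natDegree_mul k1 (pow_ne_zero _ hqu0),
      natDegree_mul (pow_ne_zero _ X_ne_zero) (pow_ne_zero _ (X_sub_C_ne_zero 1)),
      natDegree_pow, natDegree_pow, natDegree_pow, natDegree_X, natDegree_X_sub_C, hcub, hqu]
  have hf0 : c4p a1_z9 a2_z9 a3_z9 ^ 3 - c6p a1_z9 a2_z9 a3_z9 ^ 2 ≠ 0 := by
    intro h0
    rw [h0, natDegree_zero] at hfd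
    omega
  have hsq : Squarefree ((X ^ 7 - 8 * X ^ 6 + 17 * X ^ 5 - 18 * X ^ 4 + 10 * X ^ 3 - X ^ 2 - X :
      ℤ[X]).map (Int.castRingHom ℚ)) := by
    have hd : derivative (X ^ 7 - 8 * X ^ 6 + 17 * X ^ 5 - 18 * X ^ 4 + 10 * X ^ 3 - X ^ 2 - X :
        ℤ[X]) = 7 * X ^ 6 - 48 * X ^ 5 + 85 * X ^ 4 - 72 * X ^ 3 + 30 * X ^ 2 - 2 * X - 1 := by
      simp <;> ring
    have h4 := cert (X ^ 7 - 8 * X ^ 6 + 17 * X ^ 5 - 18 * X ^ 4 + 10 * X ^ 3 - X ^ 2 - X)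
      (7 * X ^ 6 - 48 * X ^ 5 + 85 * X ^ 4 - 72 * X ^ 3 + 30 * X ^ 2 - 2 * X - 1)
      (-8302 * X ^ 5 + 51601 * X ^ 4 - 69056 * X ^ 3 + 49271 * X ^ 2 - 13832 * X - 56)
      (1186 * X ^ 6 - 8727 * X ^ 5 + 14756 * X ^ 4 - 13271 * X ^ 3 + 5514 * X ^ 2 + 542 * X - 243)
      243 (by norm_num) (by push_cast; ring)
    rw [← hd, ← derivative_map] at h4
    exact Separable.squarefree h4
  refine ⟨hN, ?_, ?_, ?_⟩
  · unfold ratCusps
    rw [hfd, if_pos (by norm_num)]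
    have h1 : 0 < ((c4p a1_z9 a2_z9 a3_z9 ^ 3 - c6p a1_z9 a2_z9 a3_z9 ^ 2).rootSet ℚ).ncard := by
      rw [Set.ncard_pos]
      refine ⟨0, ?_⟩
      rw [mem_rootSet]
      refine ⟨hf0, ?_⟩
      rw [hf]
      simp
    omega
  · rw [cusps_of 6 _ _ (X ^ 7 - 8 * X ^ 6 + 17 * X ^ 5 - 18 * X ^ 4 + 10 * X ^ 3 - X ^ 2 - X)
      ((X ^ 2 - X + 1) ^ 6 * (X ^ 3 - 6 * X ^ 2 + 3 * X + 1) ^ 8)
      (1728 * (X ^ 8 * (X - 1) ^ 8 * (X ^ 2 - X + 1) ^ 2)) 9 1728 1 (by norm_num)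
      one_ne_zero hf0 hsq (by
        rw [hf]
        have : (C 1728 : ℤ[X]) = 1728 := rfl
        have e : (X ^ 7 - 8 * X ^ 6 + 17 * X ^ 5 - 18 * X ^ 4 + 10 * X ^ 3 - X ^ 2 - X : ℤ[X]) =
          X * (X - 1) * (X ^ 2 - X + 1) * (X ^ 3 - 6 * X ^ 2 + 3 * X + 1) := by ring
        rw [this, e]
        generalize (X ^ 2 - X + 1 : ℤ[X]) = u
        generalize (X ^ 3 - 6 * X ^ 2 + 3 * X + 1 : ℤ[X]) = v
        generalize (X - 1 : ℤ[X]) = w
        ring) (by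
        rw [hf, C_1]
        have e : (X ^ 7 - 8 * X ^ 6 + 17 * X ^ 5 - 18 * X ^ 4 + 10 * X ^ 3 - X ^ 2 - X : ℤ[X]) =
          X * (X - 1) * (X ^ 2 - X + 1) * (X ^ 3 - 6 * X ^ 2 + 3 * X + 1) := by ring
        rw [e]
        generalize (X ^ 2 - X + 1 : ℤ[X]) = u
        generalize (X ^ 3 - 6 * X ^ 2 + 3 * X + 1 : ℤ[X]) = v
        generalize (X - 1 : ℤ[X]) = w
        ring), hfd, if_pos (by norm_num)]
    have : (X ^ 7 - 8 * X ^ 6 + 17 * X ^ 5 - 18 * X ^ 4 + 10 * X ^ 3 - X ^ 2 - X :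
        ℤ[X]).natDegree = 7 := by
      compute_degree!
    rw [this]
  · intro p hp hpd
    rw [hf] at hpd
    have hpr := hp.prime
    simp only [Polynomial.map_mul, Polynomial.map_pow] at hpd
    rcases hpr.dvd_or_dvd hpd with h1 | h1
    · refine deg_le_of_dvd h1 ?_ ?_
      · rw [Polynomial.map_ofNat]
        norm_num
      · rw [Polynomial.map_ofNat]
        have : ((1728 : ℕ) : ℚ[X]).natDegree = 0 := natDegree_natCast 1728
        push_cast at this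
        omega
    · rcases hpr.dvd_or_dvd h1 with h2 | h2
      · rcases hpr.dvd_or_dvd h2 with h3 | h3
        · rcases hpr.dvd_or_dvd h3 with h6 | h6
          · have h4 := hpr.dvd_of_dvd_pow h6
            rw [map_X] at h4
            exact deg_le_of_dvd h4 X_ne_zero (by rw [natDegree_X]; norm_num)
          · have h4 := hpr.dvd_of_dvd_pow h6
            have h5 : (X - 1 : ℤ[X]).map (Int.castRingHom ℚ) = X - C 1 := by simp
            rw [h5] at h4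
            exact deg_le_of_dvd h4 (X_sub_C_ne_zero 1) (by rw [natDegree_X_sub_C]; norm_num)
        · refine deg_le_of_dvd (hpr.dvd_of_dvd_pow h3) ?_ ?_
          · exact (Polynomial.map_ne_zero_iff (RingHom.injective_int _)).mpr hqu0
          · exact natDegree_map_le.trans (hqu.le.trans (by norm_num))
      · refine deg_le_of_dvd h2 ?_ ?_
        · exact (Polynomial.map_ne_zero_iff (RingHom.injective_int _)).mpr hcub0
        · exact natDegree_map_le.trans hcub.le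

end Pool.Agent.H461.Blk
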