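import Pool.Agent.H461.Blk.FamLow
import Pool.Agent.H461.Blk.Kub79

/-!
# The semistable fibres of a family, counted by conductor
-/

set_option autoImplicit false

namespace Pool.Agent.H461.Blk

open Finset Polynomial UniqueFactorizationMonoid Filter Topology
open Pool.Agent.H461.Fam (NoCommon Semistable Fibre cusps)

theorem famWeight_eq {e : ℕ} (he : 1 ≤ e) {a b : ℤ[X]} (hF : NoCommon e a b)
    (hf0 : a ^ 3 - b ^ 2 ≠ 0)
    (h3 : ∀ p : ℚ[X], Irreducible p → p ∣ (a ^ 3 - b ^ 2).map (Int.castRingHom ℚ) →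
      p.natDegree ≤ 3) : famWeight e a b = cusps e a b := by
  classical
  obtain ⟨g, h, h', m, k, k', hk, hk', hS, hs1, hs6, hsd, hh'd, hgh', hgh, hrt, hwt⟩ :=
    fam_sq he hF hf0
  rw [← hwt]
  have hP0 : toQ g ≠ 0 := hS.1.ne_zero
  have hdvd : toQ g ∣ C (k' : ℚ) * toQ (a ^ 3 - b ^ 2) := by
    rw [← toQ_C, ← toQ_mul, hgh', toQ_mul]
    exact dvd_mul_right _ _
  have c1 : IsUnit (C (k' : ℚ) : ℚ[X]) :=
    (isUnit_iff_ne_zero.mpr (by exact_mod_cast hk')).map C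
  have hdvd2 : toQ g ∣ toQ (a ^ 3 - b ^ 2) := (c1.dvd_mul_left).mp hdvd
  unfold weight
  have e1 : (normalizedFactors (toQ g)).map (fun p => wt p.natDegree) =
      (normalizedFactors (toQ g)).map natDegree :=
    Multiset.map_congr rfl (fun p hp => by
      unfold wt
      rw [if_pos (h3 p (irreducible_of_normalized_factor p hp)
        ((dvd_of_mem_normalizedFactors hp).trans hdvd2))])
  rw [e1]
  obtain ⟨u, hu⟩ := prod_normalizedFactors hP0
  obtain ⟨t, ht, hut⟩ := Polynomial.isUnit_iff.mp u.isUnit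
  rw [← hut] at hu
  have e2 : (normalizedFactors (toQ g)).prod.natDegree =
      ((normalizedFactors (toQ g)).map natDegree).sum :=
    natDegree_multiset_prod _ (zero_notMem_normalizedFactors _)
  have e3 : g.natDegree = (normalizedFactors (toQ g)).prod.natDegree := by
    rw [← toQ_natDegree g]
    conv_lhs => rw [← hu]
    rw [mul_comm, natDegree_C_mul ht.ne_zero]
  rw [← e2, ← e3]
  have := hS.2.1
  omega

/-- the violators of an inequality of the type of Szpiro's conjecture -/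
def Vio (a b : ℤ[X]) (κ c₀ Z : ℝ) : Set (ℤ × ℤ) :=
  {p | ∃ (W : WeierstrassCurve ℤ) (t : ℚ), p = (W.c₄, W.c₆) ∧ Semistable W ∧ Fibre a b t W ∧
    |(W.c₄ : ℝ)| ^ 3 ≤ Z ∧ (W.c₆ : ℝ) ^ 2 ≤ Z ∧
    c₀ * (Pool.Agent.H461.Fam.cond W : ℝ) ^ κ ≤ |(W.Δ : ℝ)|}

theorem cond_pos (W : WeierstrassCurve ℤ) : 1 ≤ Pool.Agent.H461.Fam.cond W := by
  unfold Pool.Agent.H461.Fam.cond
  apply Nat.one_le_iff_ne_zero.mpr
  rw [prod_ne_zero_iff]
  intro p hp
  exact (Nat.prime_of_mem_primeFactors hp).ne_zero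

theorem vio_le {e : ℕ} (he : 1 ≤ e) {a b : ℤ[X]} (hF : NoCommon e a b)
    (hrat : ratCusps e a b ≠ 1) (κ c₀ δ : ℝ) (hκ : 0 < κ) (hc₀ : 0 < c₀) (hδ : 0 < δ) :
    ∃ C : ℝ, ∀ Z : ℝ, 1 ≤ Z → (Vio a b κ c₀ Z).Finite ∧
      ((Vio a b κ c₀ Z).ncard : ℝ) ≤ C * Z ^ (2 / (κ * famWeight e a b) + δ) := by
  obtain ⟨C, hC, h⟩ := fam_upper he hF hrat δ hδ
  obtain ⟨D, hD⟩ : ∃ D : ℝ, D = max 1 (1 / c₀) := ⟨_, rfl⟩
  have hD1 : 1 ≤ D := by rw [hD]; exact le_max_left _ _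
  have hD0 : 0 < D := by linarith
  refine ⟨C * (D ^ (1 / κ)) ^ (2 / (famWeight e a b : ℝ)), fun Z hZ => ?_⟩
  have hZ0 : 0 < Z := by linarith
  have hX1 : 1 ≤ (D * Z) ^ (1 / κ) :=
    Real.one_le_rpow (one_le_mul_of_one_le_of_one_le hD1 hZ) (by positivity)
  obtain ⟨h1, h2⟩ := h ((D * Z) ^ (1 / κ)) Z hX1 hZ
  have hsub : Vio a b κ c₀ Z ⊆ Cvs a b ((D * Z) ^ (1 / κ)) Z := by
    rintro _ ⟨W, t, rfl, hW, hft, hc4, hc6, hv⟩
    refine ⟨W, t, rfl, hW, hft, ?_, hc4, hc6⟩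
    have hNpos : (0 : ℝ) < (Pool.Agent.H461.Fam.cond W : ℝ) := by exact_mod_cast cond_pos W
    have hΔ : |(W.Δ : ℝ)| ≤ Z := by
      have hrel : (1728 : ℝ) * W.Δ = (W.c₄ : ℝ) ^ 3 - (W.c₆ : ℝ) ^ 2 := by
        exact_mod_cast W.c_relation
      have e1 : 1728 * |(W.Δ : ℝ)| = |(W.c₄ : ℝ) ^ 3 - (W.c₆ : ℝ) ^ 2| := by
        rw [← hrel, abs_mul]
        norm_num
      have e2 : |(W.c₄ : ℝ) ^ 3 - (W.c₆ : ℝ) ^ 2| ≤ |(W.c₄ : ℝ)| ^ 3 + (W.c₆ : ℝ) ^ 2 := by
        refine (abs_sub _ _).trans ?_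
        rw [abs_pow, abs_of_nonneg (sq_nonneg (W.c₆ : ℝ))]
      linarith
    have e3 : (Pool.Agent.H461.Fam.cond W : ℝ) ^ κ ≤ D * Z := by
      have e4 : (Pool.Agent.H461.Fam.cond W : ℝ) ^ κ ≤ 1 / c₀ * Z := by
        rw [one_div, ← div_eq_inv_mul, le_div_iff₀ hc₀]
        linarith
      refine e4.trans ?_
      rw [hD]
      gcongr
      exact le_max_right _ _
    calc (Pool.Agent.H461.Fam.cond W : ℝ) =
          ((Pool.Agent.H461.Fam.cond W : ℝ) ^ κ) ^ (1 / κ) := by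
          rw [← Real.rpow_mul hNpos.le, mul_one_div_cancel hκ.ne', Real.rpow_one]
      _ ≤ (D * Z) ^ (1 / κ) := by gcongr
  refine ⟨h1.subset hsub, ?_⟩
  have h3 : ((Vio a b κ c₀ Z).ncard : ℝ) ≤ ((Cvs a b ((D * Z) ^ (1 / κ)) Z).ncard : ℝ) := by
    exact_mod_cast Set.ncard_le_ncard hsub h1
  refine h3.trans (h2.trans (le_of_eq ?_))
  rw [Real.mul_rpow hD0.le hZ0.le, Real.mul_rpow (by positivity) (by positivity),
    ← Real.rpow_mul hZ0.le, Real.rpow_add hZ0]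
  have e5 : 1 / κ * (2 / (famWeight e a b : ℝ)) = 2 / (κ * famWeight e a b) := by
    rw [div_mul_div_comm, one_mul]
  rw [e5]
  ring

theorem cvs_mono (a b : ℤ[X]) {X Z Z' : ℝ} (h : Z ≤ Z') : Cvs a b X Z ⊆ Cvs a b X Z' := by
  rintro _ ⟨W, t, rfl, h1, h2, h3, h4, h5⟩
  exact ⟨W, t, rfl, h1, h2, h3, h4.trans h, h5.trans h⟩

/-- the exact exponent -/
theorem fam_tendsto {e : ℕ} (he : 1 ≤ e) {a b : ℤ[X]} (hF : NoCommon e a b)
    (hrat : ratCusps e a b ≠ 1)
    (h3 : ∀ p : ℚ[X], Irreducible p → p ∣ (a ^ 3 - b ^ 2).map (Int.castRingHom ℚ) →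
      p.natDegree ≤ 3)
    (W₀ : WeierstrassCurve ℤ) (h₀ : Semistable W₀) (t₀ : ℚ) (hf : Fibre a b t₀ W₀)
    (K : ℝ) (hK : 6 * (e : ℝ) / (cusps e a b : ℝ) < K) :
    Tendsto (fun X : ℝ => Real.log ((Cvs a b X (X ^ K)).ncard : ℝ) / Real.log X) atTop
      (𝓝 (2 / (cusps e a b : ℝ))) := by
  have hf0 : a ^ 3 - b ^ 2 ≠ 0 := by
    intro h0
    apply (Pool.Agent.H461.Fam.fibre_rel h₀.1 hf).1
    rw [h0, map_zero]
  have hw := famWeight_eq he hF hf0 h3
  obtain ⟨c, C, X₀, hc, hC, hlow⟩ := fam_lower he hF W₀ h₀ t₀ hf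
  have hs1 : 1 ≤ cusps e a b := by
    obtain ⟨g, h, h', m, k, k', hk, hk', hS, hs1, -⟩ := fam_sq he hF hf0
    exact hs1
  have hK0 : 0 < K := lt_of_le_of_lt (by positivity) hK
  set x : ℝ := 2 / (cusps e a b : ℝ) with hx
  rw [tendsto_order]
  constructor
  · intro y hy
    have hev : ∀ᶠ X : ℝ in atTop, (-Real.log c) / (x - y) < Real.log X :=
      Real.tendsto_log_atTop.eventually_gt_atTop _
    have hev2 : ∀ᶠ X : ℝ in atTop, Real.log C / (K - 6 * (e : ℝ) / (cusps e a b : ℝ)) <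
        Real.log X := Real.tendsto_log_atTop.eventually_gt_atTop _
    filter_upwards [hev, hev2, eventually_ge_atTop X₀, eventually_gt_atTop 1] with X h1 h5 h2 hX
    have hXpos : (0 : ℝ) < X := by linarith
    have hlogX : 0 < Real.log X := Real.log_pos hX
    have h6 : C * X ^ (6 * (e : ℝ) / (cusps e a b : ℝ)) ≤ X ^ K := by
      rw [div_lt_iff₀ (by linarith)] at h5
      have h7 : Real.log (C * X ^ (6 * (e : ℝ) / (cusps e a b : ℝ))) ≤ Real.log (X ^ K) := by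
        rw [Real.log_mul (by positivity) (by positivity), Real.log_rpow hXpos,
          Real.log_rpow hXpos]
        linarith
      exact (Real.log_le_log_iff (by positivity) (by positivity)).mp h7
    have h8 : ((Cvs a b X (C * X ^ (6 * (e : ℝ) / (cusps e a b : ℝ)))).ncard : ℝ) ≤
        ((Cvs a b X (X ^ K)).ncard : ℝ) := by
      exact_mod_cast Set.ncard_le_ncard (cvs_mono a b h6) (cvs_finite a b X _)
    have h4 := Real.log_le_log (by positivity) ((hlow X h2).trans h8)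
    rw [Real.log_mul hc.ne' (by positivity), Real.log_rpow hXpos] at h4
    rw [lt_div_iff₀ hlogX]
    rw [div_lt_iff₀ (by linarith)] at h1
    linarith
  · intro y hy
    obtain ⟨C', hC', hup⟩ := fam_upper he hF hrat ((y - x) / (2 * K)) (by
      have : 0 < y - x := by linarith
      positivity)
    rw [hw] at hup
    have hev : ∀ᶠ X : ℝ in atTop, Real.log (max C' 1) / ((y - x) / 2) < Real.log X :=
      Real.tendsto_log_atTop.eventually_gt_atTop _
    have hev2 : ∀ᶠ X : ℝ in atTop, Real.log C / (K - 6 * (e : ℝ) / (cusps e a b : ℝ)) <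
        Real.log X := Real.tendsto_log_atTop.eventually_gt_atTop _
    filter_upwards [hev, hev2, eventually_ge_atTop X₀, eventually_gt_atTop 1] with X h1 h9 h2 hX
    have hXpos : (0 : ℝ) < X := by linarith
    have hlogX : 0 < Real.log X := Real.log_pos hX
    have h6 : C * X ^ (6 * (e : ℝ) / (cusps e a b : ℝ)) ≤ X ^ K := by
      rw [div_lt_iff₀ (by linarith)] at h9
      have h7 : Real.log (C * X ^ (6 * (e : ℝ) / (cusps e a b : ℝ))) ≤ Real.log (X ^ K) := by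
        rw [Real.log_mul (by positivity) (by positivity), Real.log_rpow hXpos,
          Real.log_rpow hXpos]
        linarith
      exact (Real.log_le_log_iff (by positivity) (by positivity)).mp h7
    have h8 : ((Cvs a b X (C * X ^ (6 * (e : ℝ) / (cusps e a b : ℝ)))).ncard : ℝ) ≤
        ((Cvs a b X (X ^ K)).ncard : ℝ) := by
      exact_mod_cast Set.ncard_le_ncard (cvs_mono a b h6) (cvs_finite a b X _)
    have hpos : 0 < ((Cvs a b X (X ^ K)).ncard : ℝ) :=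
      lt_of_lt_of_le (by positivity) ((hlow X h2).trans h8)
    obtain ⟨-, h10⟩ := hup X (X ^ K) hX.le (Real.one_le_rpow hX.le hK0.le)
    have h4 : ((Cvs a b X (X ^ K)).ncard : ℝ) ≤ max C' 1 * X ^ (x + (y - x) / 2) := by
      refine h10.trans ?_
      rw [← Real.rpow_mul hXpos.le, Real.rpow_add hXpos]
      have e1 : K * ((y - x) / (2 * K)) = (y - x) / 2 := by field_simp
      rw [e1, ← hx]
      calc C' * X ^ ((y - x) / 2) * X ^ x = C' * (X ^ x * X ^ ((y - x) / 2)) := by ring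
        _ ≤ max C' 1 * (X ^ x * X ^ ((y - x) / 2)) := by
          gcongr
          exact le_max_left _ _
    have h5 := Real.log_le_log hpos h4
    have hmax : 0 < max C' 1 := lt_of_lt_of_le one_pos (le_max_right _ _)
    rw [Real.log_mul hmax.ne' (by positivity), Real.log_rpow hXpos] at h5
    rw [div_lt_iff₀ hlogX]
    rw [div_lt_iff₀ (by linarith)] at h1
    have h11 : y = x + 2 * ((y - x) / 2) := by ring
    rw [h11]
    linarith

end Pool.Agent.H461.Blk
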