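import Pool.Agent.H461.Blk.FamSq

/-!
# The semistable fibres of a family, counted by conductor: the upper bound
-/

set_option autoImplicit false

namespace Pool.Agent.H461.Blk

open Finset Polynomial UniqueFactorizationMonoid Pool.Agent.W4.CF Pool.Agent.W4.VC
open Pool.Agent.H461.Fam (NoCommon Semistable cond Fibre cusps)
open Pool.Agent.Y670.RD (fv fvq)

theorem bez_fam {e : ℕ} (he : 1 ≤ e) {a b : ℤ[X]} (hF : NoCommon e a b) :
    ∃ (M : ℕ) (K : ℝ), 1 ≤ M ∧ 1 ≤ K ∧ ∀ x y : ℤ, IsCoprime x y →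
      (∀ d : ℤ, d ∣ hom a (2 * e) x y → d ∣ hom b (3 * e) x y → d ∣ M) ∧
      max |(x : ℝ)| |(y : ℝ)| ≤
        K * (|((hom a (2 * e) x y : ℤ) : ℝ)| + |((hom b (3 * e) x y : ℤ) : ℝ)|) := by
  obtain ⟨ha, hb, hcop, h1 | h1⟩ := hF
  · exact Pool.Agent.TH498.KB.bez a b (2 * e) (3 * e) (by omega) (by omega) ha hb hcop h1
  · obtain ⟨M, K, h2, h3, h4⟩ := Pool.Agent.TH498.KB.bez b a (3 * e) (2 * e) (by omega) (by omega)
      hb ha hcop.symm h1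
    refine ⟨M, K, h2, h3, fun x y hxy => ?_⟩
    obtain ⟨h5, h6⟩ := h4 x y hxy
    exact ⟨fun d d1 d2 => h5 d d2 d1, by rw [add_comm]; exact h6⟩

/-- the data of a semistable fibre -/
theorem twist_data {e : ℕ} {a b : ℤ[X]} (hF : NoCommon e a b) (M : ℕ)
    (hMd : ∀ x y : ℤ, IsCoprime x y →
      (∀ d : ℤ, d ∣ hom a (2 * e) x y → d ∣ hom b (3 * e) x y → d ∣ M))
    (W : WeierstrassCurve ℤ) (hW : Semistable W) (t : ℚ) (hf : Fibre a b t W) :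
    ∃ m₁ m₂ : ℤ, m₁ ≠ 0 ∧ m₁ ∣ M ∧ 1 ≤ m₂ ∧ m₂ ≤ 3 ∧
      m₁ ^ 2 * W.c₄ = m₂ ^ 2 * hom a (2 * e) t.num t.den ∧
      m₁ ^ 3 * W.c₆ = m₂ ^ 3 * hom b (3 * e) t.num t.den := by
  obtain ⟨ha, hb, -, -⟩ := hF
  obtain ⟨l, hl, h1, h2⟩ := hf
  have hy : (t.den : ℤ) ≠ 0 := by exact_mod_cast t.den_nz
  have hyQ : (t.den : ℚ) ≠ 0 := by exact_mod_cast t.den_nz
  have ht : ((t.num : ℤ) : ℚ) / ((t.den : ℤ) : ℚ) = t := by
    push_cast
    exact Rat.num_div_den t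
  have hcop : IsCoprime t.num (t.den : ℤ) := by
    rw [Int.isCoprime_iff_gcd_eq_one]
    exact t.reduced
  set A : ℤ := hom a (2 * e) t.num t.den with hA
  set B : ℤ := hom b (3 * e) t.num t.den with hB
  have eA : (A : ℚ) = (l * (t.den : ℚ) ^ e) ^ 2 * W.c₄ := by
    have h3 := fvq ha (s := t.num) hy
    rw [ht, h1] at h3
    have h4 : (A : ℚ) = ((fv (2 * e) a t.num (t.den : ℤ) : ℤ) : ℚ) := rfl
    rw [h4, h3]
    push_cast
    ring
  have eB : (B : ℚ) = (l * (t.den : ℚ) ^ e) ^ 3 * W.c₆ := by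
    have h3 := fvq hb (s := t.num) hy
    rw [ht, h2] at h3
    have h4 : (B : ℚ) = ((fv (3 * e) b t.num (t.den : ℤ) : ℤ) : ℚ) := rfl
    rw [h4, h3]
    push_cast
    ring
  set μ : ℚ := l * (t.den : ℚ) ^ e with hμ
  have hμ0 : μ ≠ 0 := mul_ne_zero hl (pow_ne_zero _ hyQ)
  have hden : ((μ.den : ℤ) : ℚ) ≠ 0 := by exact_mod_cast μ.den_nz
  have hμe : μ * ((μ.den : ℤ) : ℚ) = (μ.num : ℚ) := by
    push_cast
    exact Rat.mul_den_eq_num μ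
  have i1 : μ.num ^ 2 * W.c₄ = (μ.den : ℤ) ^ 2 * A := by
    have : ((μ.num ^ 2 * W.c₄ : ℤ) : ℚ) = (((μ.den : ℤ) ^ 2 * A : ℤ) : ℚ) := by
      push_cast
      rw [eA, ← hμe]
      push_cast
      ring
    exact_mod_cast this
  have i2 : μ.num ^ 3 * W.c₆ = (μ.den : ℤ) ^ 3 * B := by
    have : ((μ.num ^ 3 * W.c₆ : ℤ) : ℚ) = (((μ.den : ℤ) ^ 3 * B : ℤ) : ℚ) := by
      push_cast
      rw [eB, ← hμe]
      push_cast
      ring
    exact_mod_cast this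
  have hnd : IsCoprime μ.num (μ.den : ℤ) := by
    rw [Int.isCoprime_iff_gcd_eq_one]
    exact μ.reduced
  have d1 : μ.num ^ 2 ∣ A := by
    have : μ.num ^ 2 ∣ (μ.den : ℤ) ^ 2 * A := ⟨W.c₄, i1.symm⟩
    exact (hnd.pow (m := 2) (n := 2)).dvd_of_dvd_mul_left this
  have d2 : μ.num ^ 2 ∣ B := by
    have : μ.num ^ 3 ∣ (μ.den : ℤ) ^ 3 * B := ⟨W.c₆, i2.symm⟩
    exact (pow_dvd_pow _ (by norm_num)).trans ((hnd.pow (m := 3) (n := 3)).dvd_of_dvd_mul_left this)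
  have d3 : μ.num ∣ (M : ℤ) :=
    (dvd_pow_self _ two_ne_zero).trans (hMd _ _ hcop _ d1 d2)
  have d4 : (μ.den : ℤ) ^ 2 ∣ W.c₄ := by
    have : (μ.den : ℤ) ^ 2 ∣ μ.num ^ 2 * W.c₄ := ⟨A, i1⟩
    exact (hnd.symm.pow (m := 2) (n := 2)).dvd_of_dvd_mul_left this
  have d5 : (μ.den : ℤ) ^ 3 ∣ W.c₆ := by
    have : (μ.den : ℤ) ^ 3 ∣ μ.num ^ 3 * W.c₆ := ⟨B, i2⟩
    exact (hnd.symm.pow (m := 3) (n := 3)).dvd_of_dvd_mul_left this
  have d6 : (μ.den : ℤ) ^ 6 ∣ 1728 * W.Δ := by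
    rw [W.c_relation]
    apply dvd_sub
    · have := pow_dvd_pow_of_dvd d4 3
      rwa [← pow_mul] at this
    · have := pow_dvd_pow_of_dvd d5 2
      rwa [← pow_mul] at this
  have d7 : IsCoprime ((μ.den : ℤ) ^ 6) W.Δ := by
    apply IsCoprime.pow_left
    exact hW.2.of_isCoprime_of_dvd_left ((dvd_pow_self _ two_ne_zero).trans d4)
  have d8 : (μ.den : ℤ) ^ 6 ∣ 1728 := d7.dvd_of_dvd_mul_right d6
  refine ⟨μ.num, μ.den, Rat.num_ne_zero.mpr hμ0, d3, by exact_mod_cast μ.den_pos, ?_, i1, i2⟩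
  by_contra hcon
  push Not at hcon
  have h4 : (4 : ℤ) ≤ (μ.den : ℤ) := hcon
  have h5 : (4 : ℤ) ^ 6 ≤ (μ.den : ℤ) ^ 6 := pow_le_pow_left₀ (by norm_num) h4 6
  have h6 := Int.le_of_dvd (by norm_num) d8
  norm_num at h5
  linarith

/-- the discriminant form -/
theorem disc_form {e : ℕ} {a b : ℤ[X]} (hF : NoCommon e a b) (x y : ℤ) (hy : y ≠ 0) :
    hom (a ^ 3 - b ^ 2) (6 * e) x y = hom a (2 * e) x y ^ 3 - hom b (3 * e) x y ^ 2 := by
  have hd := fam_degree hF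
  obtain ⟨ha, hb, -, -⟩ := hF
  have h1 := fvq hd (s := x) hy
  have h2 := fvq ha (s := x) hy
  have h3 := fvq hb (s := x) hy
  have h4 : ((fv (6 * e) (a ^ 3 - b ^ 2) x y : ℤ) : ℚ) =
      ((fv (2 * e) a x y ^ 3 - fv (3 * e) b x y ^ 2 : ℤ) : ℚ) := by
    push_cast
    rw [h1, h2, h3, map_sub, map_pow, map_pow]
    ring
  exact_mod_cast h4

/-- the curves in the family -/
def Cvs (a b : ℤ[X]) (X Z : ℝ) : Set (ℤ × ℤ) :=
  {p | ∃ (W : WeierstrassCurve ℤ) (t : ℚ), p = (W.c₄, W.c₆) ∧ Semistable W ∧ Fibre a b t W ∧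
    (cond W : ℝ) ≤ X ∧ |(W.c₄ : ℝ)| ^ 3 ≤ Z ∧ (W.c₆ : ℝ) ^ 2 ≤ Z}

theorem cvs_finite (a b : ℤ[X]) (X Z : ℝ) : (Cvs a b X Z).Finite := by
  refine ((Finset.finite_toSet (Icc (-⌈Z⌉) ⌈Z⌉ ×ˢ Icc (-⌈Z⌉) ⌈Z⌉))).subset ?_
  rintro _ ⟨W, t, rfl, -, -, -, h1, h2⟩
  have h3 : |(W.c₄ : ℝ)| ≤ ⌈Z⌉ := by
    refine le_trans ?_ ((h1).trans (Int.le_ceil Z))
    rcases eq_or_ne W.c₄ 0 with h0 | h0
    · rw [h0]; simp
    · have : (1 : ℝ) ≤ |(W.c₄ : ℝ)| := by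
        have : (1 : ℤ) ≤ |W.c₄| := Int.one_le_abs h0
        exact_mod_cast this
      exact le_self_pow₀ this (by norm_num)
  have h4 : |(W.c₆ : ℝ)| ≤ ⌈Z⌉ := by
    refine le_trans ?_ ((h2).trans (Int.le_ceil Z))
    rcases eq_or_ne W.c₆ 0 with h0 | h0
    · rw [h0]; simp
    · have : (1 : ℝ) ≤ |(W.c₆ : ℝ)| := by
        have : (1 : ℤ) ≤ |W.c₆| := Int.one_le_abs h0
        exact_mod_cast this
      rw [← sq_abs (W.c₆ : ℝ)]
      exact le_self_pow₀ this (by norm_num)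
  rw [Finset.mem_coe, mem_product, mem_Icc, mem_Icc]
  refine ⟨abs_le.mp ?_, abs_le.mp ?_⟩
  · exact_mod_cast h3
  · exact_mod_cast h4

/-- the data of a curve of the family -/
theorem fam_dat {e : ℕ} (he : 1 ≤ e) {a b : ℤ[X]} (hF : NoCommon e a b) (hf0 : a ^ 3 - b ^ 2 ≠ 0) :
    ∃ (g : ℤ[X]) (m0 M : ℕ) (K' : ℝ), Sqf g (cusps e a b) ∧ 1 ≤ cusps e a b ∧
      (toQ g).roots.card + (cusps e a b - g.natDegree) = ratCusps e a b ∧
      weight g (cusps e a b) = famWeight e a b ∧ 1 ≤ m0 ∧ 1 ≤ M ∧ 1 ≤ K' ∧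
      ∀ X Z : ℝ, 1 ≤ X → 1 ≤ Z → ∀ q ∈ Cvs a b X Z, ∃ d : (ℤ × ℤ) × (ℤ × ℤ),
      d.2 ∈ Icc (-(M : ℤ)) M ×ˢ Icc 1 3 ∧ d.2.1 ≠ 0 ∧
      d.2.1 ^ 2 * q.1 = d.2.2 ^ 2 * hom a (2 * e) d.1.1 d.1.2 ∧
      d.2.1 ^ 3 * q.2 = d.2.2 ^ 3 * hom b (3 * e) d.1.1 d.1.2 ∧
      (IsCoprime d.1.1 d.1.2 ∧ |(d.1.1 : ℝ)| ≤ K' * Z ∧ |(d.1.2 : ℝ)| ≤ K' * Z ∧
        hom g (cusps e a b) d.1.1 d.1.2 ≠ 0 ∧
        (radp m0 (hom g (cusps e a b) d.1.1 d.1.2).natAbs : ℝ) ≤ X) := by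
  classical
  obtain ⟨g, h, h', m, k, k', hk, hk', hS, hs1, hs6, hsd, hh'd, hgh', hgh, hrt, hwt⟩ :=
    fam_sq he hF hf0
  set s : ℕ := cusps e a b with hs
  obtain ⟨M, K, hM, hK, hbez⟩ := bez_fam he hF
  set f : ℤ[X] := a ^ 3 - b ^ 2 with hf
  set m0 : ℕ := 6 * k'.natAbs * M with hm0
  have hm01 : 1 ≤ m0 := by
    have : 1 ≤ k'.natAbs := by omega
    rw [hm0]
    exact Nat.mul_pos (by omega) hM
  set Mr : ℝ := (M : ℝ) with hMr
  have hMr1 : 1 ≤ Mr := by rw [hMr]; exact_mod_cast hM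
  set K' : ℝ := K * (Mr ^ 2 + Mr ^ 3) with hK'
  have hK'1 : 1 ≤ K' := by
    have h1 : 1 ≤ Mr ^ 2 := one_le_pow₀ hMr1
    have h2 : 0 ≤ Mr ^ 3 := by positivity
    rw [hK']
    nlinarith
  refine ⟨g, m0, M, K', hS, hs1, hrt, hwt, hm01, hM, hK'1, ?_⟩
  rintro X Z hX hZ _ ⟨W, t, rfl, hW, hft, hN, hc4, hc6⟩
  obtain ⟨m₁, m₂, a1, a2, a3, a4, a5, a6⟩ :=
    twist_data hF M (fun x y hxy => (hbez x y hxy).1) W hW t hft
  have hcop : IsCoprime t.num (t.den : ℤ) := by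
    rw [Int.isCoprime_iff_gcd_eq_one]
    exact t.reduced
  have hy : (t.den : ℤ) ≠ 0 := by exact_mod_cast t.den_nz
  have hm1M : |m₁| ≤ M := by
    have h1 := Int.le_of_dvd (by exact_mod_cast hM) ((abs_dvd m₁ M).mpr a2)
    exact h1
  have hm1R : |(m₁ : ℝ)| ≤ Mr := by
    rw [hMr]
    exact_mod_cast hm1M
  have hm2R : (1 : ℝ) ≤ (m₂ : ℝ) := by exact_mod_cast a3
  set A : ℤ := hom a (2 * e) t.num t.den with hA
  set B : ℤ := hom b (3 * e) t.num t.den with hB'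
  have hc4' : |(W.c₄ : ℝ)| ≤ Z := by
    refine le_trans ?_ hc4
    rcases eq_or_ne W.c₄ 0 with h0 | h0
    · rw [h0]; simp
    · have : (1 : ℝ) ≤ |(W.c₄ : ℝ)| := by
        have : (1 : ℤ) ≤ |W.c₄| := Int.one_le_abs h0
        exact_mod_cast this
      exact le_self_pow₀ this (by norm_num)
  have hc6' : |(W.c₆ : ℝ)| ≤ Z := by
    refine le_trans ?_ hc6
    rcases eq_or_ne W.c₆ 0 with h0 | h0
    · rw [h0]; simp
    · have : (1 : ℝ) ≤ |(W.c₆ : ℝ)| := by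
        have : (1 : ℤ) ≤ |W.c₆| := Int.one_le_abs h0
        exact_mod_cast this
      rw [← sq_abs (W.c₆ : ℝ)]
      exact le_self_pow₀ this (by norm_num)
  have hAZ : |(A : ℝ)| ≤ Mr ^ 2 * Z := by
    have e1 : (m₁ : ℝ) ^ 2 * W.c₄ = (m₂ : ℝ) ^ 2 * A := by exact_mod_cast a5
    calc |(A : ℝ)| ≤ (m₂ : ℝ) ^ 2 * |(A : ℝ)| :=
          le_mul_of_one_le_left (abs_nonneg _) (one_le_pow₀ hm2R)
      _ = |(m₂ : ℝ) ^ 2 * A| := by rw [abs_mul, abs_of_nonneg (by positivity : (0:ℝ) ≤ (m₂ : ℝ) ^ 2)]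
      _ = |(m₁ : ℝ)| ^ 2 * |(W.c₄ : ℝ)| := by rw [← e1, abs_mul, abs_pow]
      _ ≤ Mr ^ 2 * Z := by gcongr
  have hBZ : |(B : ℝ)| ≤ Mr ^ 3 * Z := by
    have e1 : (m₁ : ℝ) ^ 3 * W.c₆ = (m₂ : ℝ) ^ 3 * B := by exact_mod_cast a6
    have hm23 : (0 : ℝ) ≤ (m₂ : ℝ) ^ 3 := by positivity
    calc |(B : ℝ)| ≤ (m₂ : ℝ) ^ 3 * |(B : ℝ)| :=
          le_mul_of_one_le_left (abs_nonneg _) (one_le_pow₀ hm2R)
      _ = |(m₂ : ℝ) ^ 3 * B| := by rw [abs_mul, abs_of_nonneg hm23]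
      _ = |(m₁ : ℝ)| ^ 3 * |(W.c₆ : ℝ)| := by rw [← e1, abs_mul, abs_pow]
      _ ≤ Mr ^ 3 * Z := by gcongr
  have hmx : max |(t.num : ℝ)| |((t.den : ℤ) : ℝ)| ≤ K' * Z := by
    refine ((hbez _ _ hcop).2).trans ?_
    rw [hK']
    calc K * (|(A : ℝ)| + |(B : ℝ)|) ≤ K * (Mr ^ 2 * Z + Mr ^ 3 * Z) := by gcongr
      _ = _ := by ring
  -- the discriminant
  have hdisc : m₁ ^ 6 * (1728 * W.Δ) = m₂ ^ 6 * hom f (6 * e) t.num t.den := by
    rw [hf, disc_form hF _ _ hy, ← hA, ← hB', W.c_relation]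
    calc m₁ ^ 6 * (W.c₄ ^ 3 - W.c₆ ^ 2) = (m₁ ^ 2 * W.c₄) ^ 3 - (m₁ ^ 3 * W.c₆) ^ 2 := by ring
      _ = _ := by rw [a5, a6]; ring
  have hgf : k' * hom f (6 * e) t.num t.den =
      hom g s t.num t.den * hom h' (6 * e - s) t.num t.den := by
    rw [← hom_smul, hgh', ← Pool.Agent.W505.VC.hom_mul g h' s (6 * e - s) hS.2.1 hh'd]
    congr 1
    omega
  have hf0' : hom f (6 * e) t.num t.den ≠ 0 := by
    intro h0
    rw [h0, mul_zero] at hdisc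
    have h1 : m₁ ^ 6 * (1728 * W.Δ) ≠ 0 :=
      mul_ne_zero (pow_ne_zero _ a1) (mul_ne_zero (by norm_num) hW.1)
    exact h1 hdisc
  have hg0' : hom g s t.num t.den ≠ 0 := by
    intro h0
    rw [h0, zero_mul] at hgf
    exact (mul_ne_zero hk' hf0') hgf
  refine ⟨((t.num, (t.den : ℤ)), (m₁, m₂)), ?_, a1, a5, a6, hcop,
    (le_max_left _ _).trans hmx, (le_max_right _ _).trans hmx, hg0', ?_⟩
  · rw [mem_product, mem_Icc, mem_Icc]
    exact ⟨abs_le.mp hm1M, a3, a4⟩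
  · refine le_trans ?_ hN
    have key : radp m0 (hom g s t.num t.den).natAbs ≤ cond W := by
      unfold radp Pool.Agent.H461.Fam.cond
      apply Finset.prod_le_prod_of_subset_of_one_le'
      · intro q hq
        rw [mem_filter] at hq
        obtain ⟨hq1, hq2⟩ := hq
        have hqp := Nat.prime_of_mem_primeFactors hq1
        have hqZ : Prime (q : ℤ) := Nat.prime_iff_prime_int.mp hqp
        have hd : (q : ℤ) ∣ hom g s t.num t.den :=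
          Int.natCast_dvd.mpr (Nat.dvd_of_mem_primeFactors hq1)
        have hq6 : ¬ (q : ℤ) ∣ 6 := by
          intro h3
          apply hq2
          have : q ∣ 6 := by exact_mod_cast h3
          exact (this.mul_right _).mul_right _
        have hqk : ¬ (q : ℤ) ∣ k' := by
          intro h3
          apply hq2
          have : q ∣ k'.natAbs := Int.natCast_dvd.mp h3
          exact (this.mul_left 6).mul_right _
        have hqM : ¬ (q : ℤ) ∣ m₁ := by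
          intro h3
          apply hq2
          have : q ∣ M := by exact_mod_cast (h3.trans a2)
          exact this.mul_left _
        have hd2 : (q : ℤ) ∣ hom f (6 * e) t.num t.den := by
          have : (q : ℤ) ∣ k' * hom f (6 * e) t.num t.den := by
            rw [hgf]
            exact hd.mul_right _
          exact (hqZ.dvd_or_dvd this).resolve_left hqk
        have hd3 : (q : ℤ) ∣ m₁ ^ 6 * (1728 * W.Δ) := by
          rw [hdisc]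
          exact hd2.mul_left _
        have hd4 : (q : ℤ) ∣ W.Δ := by
          rcases hqZ.dvd_or_dvd hd3 with h3 | h3
          · exact absurd (hqZ.dvd_of_dvd_pow h3) hqM
          · rcases hqZ.dvd_or_dvd h3 with h4 | h4
            · exfalso
              apply hq6
              have : (q : ℤ) ∣ 6 ^ 6 := h4.trans (by norm_num)
              exact hqZ.dvd_of_dvd_pow this
            · exact h4
        exact Nat.mem_primeFactors.mpr ⟨hqp, Int.natCast_dvd.mp hd4,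
          Int.natAbs_ne_zero.mpr hW.1⟩
      · intro q hq _
        exact (Nat.prime_of_mem_primeFactors hq).one_lt.le
    exact_mod_cast key

theorem fin_arith {S P J C E z x : ℝ} (hS : S ≤ P * J) (hP : P ≤ C * (E * z) * x) (hJ : 0 ≤ J)
    (hz : 0 ≤ z) (hx : 0 ≤ x) : S ≤ (C * E * J + 1) * z * x := by
  calc S ≤ P * J := hS
    _ ≤ (C * (E * z) * x) * J := mul_le_mul_of_nonneg_right hP hJ
    _ = (C * E * J) * z * x := by ring
    _ ≤ (C * E * J + 1) * z * x := by nlinarith [mul_nonneg hz hx]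

/-- **The upper bound.** -/
theorem fam_upper {e : ℕ} (he : 1 ≤ e) {a b : ℤ[X]} (hF : NoCommon e a b)
    (hrat : ratCusps e a b ≠ 1) (ε : ℝ) (hε : 0 < ε) : ∃ C : ℝ, 0 < C ∧ ∀ X Z : ℝ, 1 ≤ X → 1 ≤ Z →
      (Cvs a b X Z).Finite ∧
      ((Cvs a b X Z).ncard : ℝ) ≤ C * Z ^ ε * X ^ (2 / (famWeight e a b : ℝ)) := by
  classical
  rcases eq_or_ne (a ^ 3 - b ^ 2) 0 with hf0 | hf0
  · refine ⟨1, one_pos, fun X Z hX hZ => ⟨cvs_finite a b X Z, ?_⟩⟩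
    have : Cvs a b X Z = ∅ := by
      rw [Set.eq_empty_iff_forall_notMem]
      rintro _ ⟨W, t, -, hW, hf, -⟩
      apply (Pool.Agent.H461.Fam.fibre_rel hW.1 hf).1
      rw [hf0, map_zero]
    rw [this, Set.ncard_empty]
    push_cast
    positivity
  obtain ⟨g, m0, M, K', hS, hs1, hrt, hwt, hm01, hM, hK'1, hdat⟩ := fam_dat he hF hf0
  have hB := form_main g _ hs1 hS (by rw [hrt]; exact hrat)
  rw [hwt] at hB
  obtain ⟨C, hC, hmain⟩ := hB ε hε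
  obtain ⟨J, hJ⟩ : ∃ J : Finset (ℤ × ℤ), J = Icc (-(M : ℤ)) M ×ˢ Icc 1 3 := ⟨_, rfl⟩
  rw [← hJ] at hdat
  refine ⟨C * ((m0 : ℝ) * K') ^ ε * J.card + 1, by positivity, fun X Z hX hZ =>
    ⟨cvs_finite a b X Z, ?_⟩⟩
  have hfin := cvs_finite a b X Z
  rw [Set.ncard_eq_toFinset_card _ hfin]
  have hmem : ∀ q ∈ hfin.toFinset, q ∈ Cvs a b X Z := fun q hq => by
    rwa [Set.Finite.mem_toFinset] at hq
  generalize hfin.toFinset = S at hmem
  choose! d hd using hdat X Z hX hZ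
  have hcard : S.card ≤ (S.image (fun q => (d q).1) ×ˢ J).card := by
    apply card_le_card_of_injOn d
    · intro q hq
      rw [coe_product]
      exact ⟨mem_image_of_mem (fun q => (d q).1) hq, (hd q (hmem q hq)).1⟩
    · intro q hq q' hq' hqq
      obtain ⟨-, b2, b3, b4, -⟩ := hd q (hmem q hq)
      obtain ⟨-, b2', b3', b4', -⟩ := hd q' (hmem q' hq')
      rw [hqq] at b2 b3 b4
      refine Prod.ext ?_ ?_
      · exact mul_left_cancel₀ (pow_ne_zero 2 b2) (b3.trans b3'.symm)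
      · exact mul_left_cancel₀ (pow_ne_zero 3 b2) (b4.trans b4'.symm)
  rw [card_product] at hcard
  have h1 := hmain m0 (K' * Z) X hm01 (one_le_mul_of_one_le_of_one_le hK'1 hZ) hX
    (S.image (fun q => (d q).1)) (by
    intro p hp
    rw [mem_image] at hp
    obtain ⟨q, hq, rfl⟩ := hp
    exact (hd q (hmem q hq)).2.2.2.2)
  have e1 : ((m0 : ℝ) * (K' * Z)) ^ ε = ((m0 : ℝ) * K') ^ ε * Z ^ ε := by
    rw [← Real.mul_rpow (by positivity) (by positivity)]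
    congr 1
    ring
  rw [e1, one_div_div] at h1
  refine fin_arith (P := ((S.image (fun q => (d q).1)).card : ℝ)) ?_ h1 (by positivity)
    (by positivity) (by positivity)
  exact_mod_cast hcard

end Pool.Agent.H461.Blk
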